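import Pool.Agent.N298.PGA.Defs

/-!
# Weak greedy algorithms, worst and best realizations (MP_19b6b2_an)
-/

set_option autoImplicit false

namespace Pool.Agent.J4H62.PG

variable {H : Type*} [NormedAddCommGroup H] [InnerProductSpace ℝ H]

/-- The sequences `φ` (chosen elements `φ 1, φ 2, …`) and `G` (approximants `G 0, G 1, …`) are a
realization, up to step `m`, of the weak greedy algorithm with weakness parameters `τ 1, τ 2, …`
for `f` and the dictionary `D`. For `τ = 1` this is the Pure Greedy Algorithm. -/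
structure IsWGA (D : Set H) (f : H) (τ : ℕ → ℝ) (m : ℕ) (φ G : ℕ → H) : Prop where
  zero : G 0 = 0
  mem : ∀ k < m, φ (k+1) ∈ D
  greedy : ∀ k < m, ∀ g ∈ D, τ (k+1) * |inner ℝ (f - G k) g| ≤ |inner ℝ (f - G k) (φ (k+1))|
  step : ∀ k < m, G (k+1) = G k + (inner ℝ (f - G k) (φ (k+1))) • φ (k+1)

/-- The errors `‖f - G_m‖` of all realizations of the Pure Greedy Algorithm for `f` and `D`. -/
def errs (D : Set H) (f : H) (m : ℕ) : Set ℝ :=
  {e | ∃ φ G : ℕ → H, IsWGA D f (fun _ => 1) m φ G ∧ e = ‖f - G m‖}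

/-- `γ(m)`: the largest error after `m` steps, over all dictionaries, all `f ∈ A_1(D)` and all
realizations of the Pure Greedy Algorithm. -/
noncomputable def gam (H : Type*) [NormedAddCommGroup H] [InnerProductSpace ℝ H] (m : ℕ) : ℝ :=
  sSup {e | ∃ (D : Set H) (f : H), N298.PGA.IsDictionary D ∧ f ∈ N298.PGA.A1 D ∧ e ∈ errs D f m}

/-- The same supremum over the dictionaries and the `f ∈ A_1(D)` (for which the algorithm can be
run for `m` steps), but of the error of the BEST realization. -/
noncomputable def gamBest (H : Type*) [NormedAddCommGroup H] [InnerProductSpace ℝ H] (m : ℕ) : ℝ :=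
  sSup {e | ∃ (D : Set H) (f : H), N298.PGA.IsDictionary D ∧ f ∈ N298.PGA.A1 D ∧
    (errs D f m).Nonempty ∧ e = sInf (errs D f m)}

end Pool.Agent.J4H62.PG
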