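import Pool.Agent.J4H62.PG.Defs
import Pool.Agent.N298.PGA.Low2

/-!
# From a strictly greedy system to a dictionary with a unique realization
-/

set_option autoImplicit false
set_option linter.all false

namespace Pool.Agent.J4H62.PG

open Real Finset Filter Topology N298.PGA

/-- Realization in a given infinite-dimensional space, with an orthonormal sequence and one more
unit vector, all orthogonal to the system. -/
theorem realize2 (K : ℕ → ℕ → ℝ) (hsym : ∀ i j, K i j = K j i)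
    (hpos : ∀ (n : ℕ) (x : ℕ → ℝ), 0 ≤ ∑ i ∈ range n, ∑ j ∈ range n, K i j * x i * x j)
    (H : Type*) [NormedAddCommGroup H] [InnerProductSpace ℝ H] (hH : ¬ FiniteDimensional ℝ H) :
    ∃ (φ u : ℕ → H) (b : H), (∀ i j, (inner ℝ (φ i) (φ j)) = K i j) ∧ Orthonormal ℝ u ∧ ‖b‖ = 1 ∧
      (∀ i, (inner ℝ b (φ i)) = 0) ∧ (∀ i, (inner ℝ b (u i)) = 0) ∧
      ∀ i j, (inner ℝ (u j) (φ i)) = 0 := by
  obtain ⟨e, he⟩ := exists_orthonormal_seq H hH
  obtain ⟨E, _, _, f, hf⟩ := exists_gram K hsym hpos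
  have he' : Orthonormal ℝ (fun n => e (2*n+2)) :=
    he.comp _ (fun a b h => by simpa using h)
  have hu : Orthonormal ℝ (fun n => e (2*n+1)) :=
    he.comp _ (fun a b h => by simpa using h)
  obtain ⟨φ, h1, h2⟩ := transfer f (fun n => e (2*n+2)) he'
  have h3 : ∀ y : H, (∀ n, (inner ℝ y (e (2*n+2))) = 0) →
      ∀ x ∈ Submodule.span ℝ (Set.range (fun n => e (2*n+2))), (inner ℝ y x) = 0 := by
    intro y hy x hx
    induction hx using Submodule.span_induction with
    | mem x hx =>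
      obtain ⟨n, rfl⟩ := hx
      exact hy n
    | zero => simp
    | add x y _ _ h1 h2 => rw [inner_add_right, h1, h2, add_zero]
    | smul a x _ h => rw [inner_smul_right, h, mul_zero]
  refine ⟨φ, fun n => e (2*n+1), e 0, fun i j => by rw [h1, hf], hu, he.1 0, fun i => ?_,
    fun i => ?_, fun i j => ?_⟩
  · exact h3 _ (fun n => he.2 (by omega)) _ (h2 i)
  · exact he.2 (by omega)
  · exact h3 _ (fun n => he.2 (by omega)) _ (h2 i)

section

variable {H : Type*} [NormedAddCommGroup H] [InnerProductSpace ℝ H]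

/-- The residuals of the prescribed realization. -/
noncomputable def rr (ψ : ℕ → H) (s : ℕ → ℝ) (g0 : H) (n : ℕ) : H :=
  g0 - ∑ k ∈ range n, s k • ψ k

theorem dict [CompleteSpace H] (ψ : ℕ → H) (s γ : ℕ → ℝ) (g0 b : H) (K : ℝ)
    (hψ : ∀ i, ‖ψ i‖ = 1) (hs : ∀ k, 0 < s k) (hγ0 : ∀ k, 0 < γ k) (hγ : ∀ k, γ k ≤ 1/2)
    (hA : ∀ n, (inner ℝ (rr ψ s g0 n) (ψ n)) = s n)
    (hB : ∀ n i, i ≠ n → |(inner ℝ (rr ψ s g0 n) (ψ i))| ≤ (1 - γ n) * s n)
    (hK : 0 ≤ K) (hC : ∀ n, |(inner ℝ (rr ψ s g0 n) g0)| ≤ K * s n)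
    (hb : ‖b‖ = 1) (hbψ : ∀ i, (inner ℝ b (ψ i)) = 0)
    (hg0 : ∀ x : H, (∀ i, (inner ℝ (ψ i) x) = 0) → (inner ℝ g0 x) = 0) :
    ∃ (D : Set H) (f : H) (φ0 G0 : ℕ → H), IsDictionary D ∧ f ∈ A1 D ∧
      (∀ n, f - G0 n = (2 * K + ‖g0‖ + 1)⁻¹ • rr ψ s g0 n) ∧
      ∀ (τ : ℕ → ℝ) (m : ℕ), (∀ k < m, 1 - γ k < τ (k+1) ∧ τ (k+1) ≤ 1) →
        IsWGA D f τ m φ0 G0 ∧ ∀ φ G : ℕ → H, IsWGA D f τ m φ G →
          (∀ k < m, φ (k+1) = φ0 (k+1)) ∧ ∀ k ≤ m, G k = G0 k := by
  set L : ℝ := 2 * K + ‖g0‖ + 1 with hL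
  have hLp : 0 < L := by positivity
  have hLi : 0 < L⁻¹ := by positivity
  set f : H := L⁻¹ • g0 with hf
  have hfn : ‖f‖ ^ 2 ≤ 1 := by
    have h1 : ‖f‖ ≤ 1 := by
      rw [hf, norm_smul, Real.norm_eq_abs, abs_of_pos hLi, inv_mul_le_iff₀ hLp]
      linarith
    have h2 := norm_nonneg f
    nlinarith
  set t : ℝ := Real.sqrt (1 - ‖f‖ ^ 2) with ht
  have ht2 : t ^ 2 = 1 - ‖f‖ ^ 2 := Real.sq_sqrt (by linarith)
  have hg0b : (inner ℝ g0 b) = 0 := hg0 b (fun i => by rw [real_inner_comm]; exact hbψ i)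
  have hfb : (inner ℝ f b) = 0 := by rw [hf, real_inner_smul_left, hg0b, mul_zero]
  set gp : H := f + t • b with hgp
  set gm : H := f - t • b with hgm
  have hgpn : ‖gp‖ = 1 := by
    have h1 : ‖gp‖ ^ 2 = 1 := by rw [hgp, nsq_add f b t hfb hb, ht2]; ring
    have h2 := norm_nonneg gp
    nlinarith
  have hgmn : ‖gm‖ = 1 := by
    have h1 : ‖gm‖ ^ 2 = 1 := by rw [hgm, nsq_sub f b t hfb hb, ht2]; ring
    have h2 := norm_nonneg gm
    nlinarith
  set D : Set H := {x | (∃ i, x = ψ i) ∨ x = gp ∨ x = gm ∨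
    (‖x‖ = 1 ∧ (∀ i, (inner ℝ (ψ i) x) = 0) ∧ (inner ℝ gp x) = 0 ∧ (inner ℝ gm x) = 0)} with hD
  set G0 : ℕ → H := fun n => L⁻¹ • ∑ k ∈ range n, s k • ψ k with hG0
  have hres : ∀ k, f - G0 k = L⁻¹ • rr ψ s g0 k := by
    intro k; rw [hf, hG0]; unfold rr; rw [smul_sub]
  -- residuals are orthogonal to everything orthogonal to the `ψ i`
  have hrx : ∀ n (x : H), (∀ i, (inner ℝ (ψ i) x) = 0) → (inner ℝ (rr ψ s g0 n) x) = 0 := by
    intro n x hx
    unfold rr
    rw [inner_sub_left, hg0 x hx, sum_inner, Finset.sum_eq_zero, sub_zero]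
    intro i _
    rw [real_inner_smul_left, hx i, mul_zero]
  have hrb : ∀ n, (inner ℝ (rr ψ s g0 n) b) = 0 := fun n =>
    hrx n b (fun i => by rw [real_inner_comm]; exact hbψ i)
  -- the bound for every element of `D` different from `ψ n`
  have hrf : ∀ n, |(inner ℝ (rr ψ s g0 n) f)| ≤ (1 - γ n) * s n := by
    intro n
    rw [hf, real_inner_smul_right, abs_mul, abs_of_pos hLi, inv_mul_le_iff₀ hLp]
    have h1 := hC n
    have h2 := hs n
    have h3 := hγ n
    have h4 : 0 ≤ ‖g0‖ := norm_nonneg _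
    have h5 : K * s n ≤ L * ((1 / 2) * s n) := by
      rw [hL]
      have : 0 ≤ (‖g0‖ + 1) * s n := by positivity
      nlinarith
    have h6 : L * ((1 / 2) * s n) ≤ L * ((1 - γ n) * s n) :=
      mul_le_mul_of_nonneg_left (mul_le_mul_of_nonneg_right (by linarith) h2.le) hLp.le
    linarith
  have hall : ∀ n, ∀ g ∈ D, g ≠ ψ n → |(inner ℝ (rr ψ s g0 n) g)| ≤ (1 - γ n) * s n := by
    intro n g hg hne
    have h0 : 0 ≤ (1 - γ n) * s n := mul_nonneg (by linarith [hγ n]) (hs n).le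
    rcases hg with ⟨i, rfl⟩ | rfl | rfl | ⟨_, h1, _⟩
    · exact hB n i (fun h => hne (by rw [h]))
    · rw [hgp, inner_add_right, real_inner_smul_right _ b t, hrb, mul_zero, add_zero]; exact hrf n
    · rw [hgm, inner_sub_right, real_inner_smul_right _ b t, hrb, mul_zero, sub_zero]; exact hrf n
    · rw [hrx n g h1, abs_zero]; exact h0
  have hDψ : ∀ n, ψ n ∈ D := fun n => Or.inl ⟨n, rfl⟩
  refine ⟨D, f, fun k => ψ (k-1), G0, ⟨?_, ?_⟩, ?_, hres, ?_⟩
  · rintro x (⟨i, rfl⟩ | rfl | rfl | ⟨h, -⟩)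
    · exact hψ i
    · exact hgpn
    · exact hgmn
    · exact h
  · rw [← Submodule.topologicalClosure_coe, ← Submodule.top_coe (R := ℝ) (M := H)]
    congr 1
    rw [Submodule.topologicalClosure_eq_top_iff, Submodule.eq_bot_iff]
    intro x hx
    rw [Submodule.mem_orthogonal] at hx
    by_contra hne
    have hxn : 0 < ‖x‖ := norm_pos_iff.2 hne
    have hmem : ∀ y ∈ D, (inner ℝ y x) = 0 := fun y hy => hx y (Submodule.subset_span hy)
    have h1 : (‖x‖⁻¹ • x) ∈ D := by
      refine Or.inr (Or.inr (Or.inr ⟨?_, ?_, ?_, ?_⟩))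
      · rw [norm_smul, norm_inv, norm_norm]; exact inv_mul_cancel₀ hxn.ne'
      · intro i
        rw [real_inner_smul_right, hmem _ (hDψ i), mul_zero]
      · rw [real_inner_smul_right, hmem _ (Or.inr (Or.inl rfl)), mul_zero]
      · rw [real_inner_smul_right, hmem _ (Or.inr (Or.inr (Or.inl rfl))), mul_zero]
    have h2 := hmem _ h1
    rw [real_inner_smul_left, real_inner_self_eq_norm_sq] at h2
    have : 0 < ‖x‖⁻¹ * ‖x‖ ^ 2 := by positivity
    linarith
  · apply subset_closure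
    refine ⟨2, ![1/2, 1/2], ![gp, gm], ?_, ?_, ?_⟩
    · intro i
      fin_cases i
      · exact Or.inr (Or.inl rfl)
      · exact Or.inr (Or.inr (Or.inl rfl))
    · simp [Fin.sum_univ_two, abs_of_pos]; norm_num
    · simp only [Fin.sum_univ_two, Matrix.cons_val_zero, Matrix.cons_val_one]
      rw [hgp, hgm, ← smul_add]
      have : f + t • b + (f - t • b) = (2:ℝ) • f := by rw [two_smul]; abel
      rw [this, smul_smul]; norm_num
  · intro τ m hτ
    have hstep : ∀ k, G0 (k+1) = G0 k + (inner ℝ (f - G0 k) (ψ k)) • ψ k := by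
      intro k
      rw [hres k, real_inner_smul_left, hA]
      simp only [hG0, Finset.sum_range_succ, smul_add, smul_smul]
    refine ⟨⟨by simp [hG0], fun k _ => ?_, fun k hk g hg => ?_, fun k _ => ?_⟩, ?_⟩
    · simpa using hDψ k
    · simp only [Nat.add_sub_cancel]
      rw [hres k, real_inner_smul_left, real_inner_smul_left, abs_mul, abs_mul, hA,
        abs_of_pos (hs k), abs_of_pos hLi]
      by_cases hne : g = ψ k
      · rw [hne, hA, abs_of_pos (hs k)]
        have h1 := (hτ k hk).2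
        have h2 : 0 < L⁻¹ * s k := mul_pos hLi (hs k)
        nlinarith
      · have h1 := hall k g hg hne
        have h2 := (hτ k hk).2
        have h3 := (hτ k hk).1
        have h4 : 0 ≤ τ (k+1) := by linarith [hγ k]
        have h5 : (1 - γ k) * s k ≤ s k := by nlinarith [hγ0 k, hs k]
        have h6 : L⁻¹ * |(inner ℝ (rr ψ s g0 k) g)| ≤ L⁻¹ * s k :=
          mul_le_mul_of_nonneg_left (h1.trans h5) hLi.le
        have h7 : 0 ≤ L⁻¹ * |(inner ℝ (rr ψ s g0 k) g)| := by positivity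
        nlinarith
    · simp only [Nat.add_sub_cancel]; exact hstep k
    · intro φ G hG
      have key : ∀ k < m, G k = G0 k → φ (k+1) = ψ k := by
        intro k hk hGk
        by_contra hne
        have h1 := hG.greedy k hk (ψ k) (hDψ k)
        have h2 := hall k _ (hG.mem k hk) hne
        rw [hGk, hres k, real_inner_smul_left, real_inner_smul_left, abs_mul, abs_mul, hA,
          abs_of_pos (hs k), abs_of_pos hLi] at h1
        have h3 := (hτ k hk).1
        have h4 : L⁻¹ * |(inner ℝ (rr ψ s g0 k) (φ (k+1)))| ≤ L⁻¹ * ((1 - γ k) * s k) :=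
          mul_le_mul_of_nonneg_left h2 hLi.le
        have h5 : L⁻¹ * ((1 - γ k) * s k) < τ (k+1) * (L⁻¹ * s k) := by
          have : 0 < L⁻¹ * s k := mul_pos hLi (hs k)
          nlinarith
        linarith
      have hGG : ∀ k ≤ m, G k = G0 k := by
        intro k
        induction k with
        | zero => intro _; rw [hG.zero]; simp [hG0]
        | succ k ih =>
          intro hk
          have h1 := ih (by omega)
          rw [hG.step k (by omega), key k (by omega) h1, h1, hstep k]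
      exact ⟨fun k hk => by simpa using key k hk (hGG k hk.le), hGG⟩

end

end Pool.Agent.J4H62.PG
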