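import Pool.Agent.J4H62.PG.Dict

/-!
# Breaking all ties: the strictly greedy system
-/

set_option autoImplicit false
set_option linter.all false

namespace Pool.Agent.J4H62.PG

open Real Finset Filter Topology N298.PGA

/-! ### The parameters -/

/-- `ε_k = ν_k^(-1/3) / 4` -/
noncomputable def ep (c k : ℕ) : ℝ := (nu c k) ^ (-(1/3) : ℝ) / 4
noncomputable def pp' (c k : ℕ) : ℝ := 1 - ep c k
noncomputable def qq (c k : ℕ) : ℝ := Real.sqrt (1 - pp' c k ^ 2)
/-- the steps -/
noncomputable def sc (v : ℝ) (c k : ℕ) : ℝ := aa (be v) c k / pp' c k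
/-- the coefficients of the fresh directions -/
noncomputable def bc (v : ℝ) (c k : ℕ) : ℝ := sc v c k * qq c k
/-- the gaps -/
noncomputable def ga (v : ℝ) (c k : ℕ) : ℝ := rho (be v) c k * (1 - pp' c k ^ 2)

section par

variable {c : ℕ} (hc : 2 ≤ c)
include hc

lemma ep_pos (k : ℕ) : 0 < ep c k := by
  have := nu_pos hc k
  unfold ep; positivity

lemma ep_le (k : ℕ) : ep c k ≤ 1/4 := by
  have h1 := two_le_nu hc k
  have : (nu c k) ^ (-(1/3) : ℝ) ≤ 1 := Real.rpow_le_one_of_one_le_of_nonpos (by linarith) (by norm_num)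
  unfold ep; linarith

lemma ep_anti {i j : ℕ} (h : i ≤ j) : ep c j ≤ ep c i := by
  have h1 := nu_pos hc i
  have h2 := nu_mono (c := c) h
  have : (nu c j) ^ (-(1/3) : ℝ) ≤ (nu c i) ^ (-(1/3) : ℝ) :=
    Real.rpow_le_rpow_of_nonpos h1 h2 (by norm_num)
  unfold ep; linarith

lemma pp_lo (k : ℕ) : 3/4 ≤ pp' c k := by unfold pp'; linarith [ep_le hc k]
lemma pp_lt (k : ℕ) : pp' c k < 1 := by unfold pp'; linarith [ep_pos hc k]
lemma pp_pos (k : ℕ) : 0 < pp' c k := by linarith [pp_lo hc k]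
lemma pp_mono {i j : ℕ} (h : i ≤ j) : pp' c i ≤ pp' c j := by unfold pp'; linarith [ep_anti hc h]
lemma pp_sq_lt (k : ℕ) : 0 < 1 - pp' c k ^ 2 := by nlinarith [pp_lo hc k, pp_lt hc k]
lemma qq_sq (k : ℕ) : qq c k ^ 2 = 1 - pp' c k ^ 2 := by
  unfold qq; exact Real.sq_sqrt (pp_sq_lt hc k).le
lemma ep_le_ga (k : ℕ) : ep c k ≤ 1 - pp' c k ^ 2 := by
  unfold pp'; nlinarith [ep_pos hc k, ep_le hc k]

end par

section seq

variable {c : ℕ} (hc' : 2000 ≤ c) {v : ℝ} (hv : IsRoot v)
include hc' hv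

lemma rho_le_half (k : ℕ) : rho (be v) c k ≤ 1/2 := by
  have hc : 2 ≤ c := by omega
  unfold rho
  rw [div_le_div_iff₀ (nu_pos hc k) (by norm_num)]
  have := two_le_nu hc k
  have := be_lt hv
  linarith

lemma sc_pos (k : ℕ) : 0 < sc v c k := by
  have hc : 2 ≤ c := by omega
  exact div_pos (aa_pos (be_pos hv) (be_lt hv) hc k) (pp_pos hc k)

lemma ga_pos (k : ℕ) : 0 < ga v c k := by
  have hc : 2 ≤ c := by omega
  exact mul_pos (rho_pos (be_pos hv) hc k) (pp_sq_lt hc k)

lemma ga_le (k : ℕ) : ga v c k ≤ 1/2 := by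
  have hc : 2 ≤ c := by omega
  have h1 := rho_le_half hc' hv k
  have h2 := pp_sq_lt hc k
  have h3 := sq_nonneg (pp' c k)
  have h4 := rho_pos (be_pos hv) hc k
  unfold ga
  nlinarith

/-- the basic bound `b_k² ≤ (c^β/β) a_k ρ_k` -/
lemma bc_sq_le (k : ℕ) : bc v c k ^ 2 ≤ ((c:ℝ) ^ be v / be v) * (aa (be v) c k * rho (be v) c k) := by
  have hc : 2 ≤ c := by omega
  have hb := be_pos hv
  have hbg := be_gt hv
  have hν := nu_pos hc k
  have hν1 := two_le_nu hc k
  have ha := aa_pos hb (be_lt hv) hc k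
  have h1 := aa_le_pow hc' hv k
  have hp := pp_lo hc k
  have hpp := pp_pos hc k
  have hε := ep_pos hc k
  have hε1 := ep_le hc k
  have e1 : bc v c k ^ 2 = aa (be v) c k ^ 2 * ((1 - pp' c k ^ 2) / pp' c k ^ 2) := by
    unfold bc sc; rw [mul_pow, qq_sq hc k]; field_simp
  have h2 : (1 - pp' c k ^ 2) / pp' c k ^ 2 ≤ 4 * ep c k := by
    rw [div_le_iff₀ (by positivity)]
    have : pp' c k = 1 - ep c k := rfl
    rw [this] at hp ⊢
    have h4 : 2 - ep c k ≤ 4 * (1 - ep c k) ^ 2 := by nlinarith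
    have h5 := mul_le_mul_of_nonneg_left h4 hε.le
    nlinarith
  have h3 : aa (be v) c k * (4 * ep c k) ≤ (c:ℝ) ^ be v * (nu c k)⁻¹ := by
    have e2 : 4 * ep c k = (nu c k) ^ (-(1/3) : ℝ) := by unfold ep; ring
    rw [e2]
    calc _ ≤ ((c:ℝ) ^ (be v) * (nu c k) ^ (-(be v))) * (nu c k) ^ (-(1/3) : ℝ) :=
          mul_le_mul_of_nonneg_right h1 (by positivity)
      _ = (c:ℝ) ^ be v * ((nu c k) ^ (-(be v) + -(1/3))) := by
          rw [Real.rpow_add hν]; ring
      _ ≤ (c:ℝ) ^ be v * (nu c k)⁻¹ := by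
          apply mul_le_mul_of_nonneg_left _ (by positivity)
          rw [← Real.rpow_neg_one]
          exact Real.rpow_le_rpow_of_exponent_le (by linarith) (by linarith)
  calc bc v c k ^ 2 = aa (be v) c k ^ 2 * ((1 - pp' c k ^ 2) / pp' c k ^ 2) := e1
    _ ≤ aa (be v) c k ^ 2 * (4 * ep c k) := mul_le_mul_of_nonneg_left h2 (by positivity)
    _ = aa (be v) c k * (aa (be v) c k * (4 * ep c k)) := by ring
    _ ≤ aa (be v) c k * ((c:ℝ) ^ be v * (nu c k)⁻¹) := mul_le_mul_of_nonneg_left h3 ha.le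
    _ = _ := by unfold rho; field_simp

lemma bc_sum (n J : ℕ) (h : n ≤ J) :
    ∑ k ∈ Finset.Ico n J, bc v c k ^ 2 ≤ ((c:ℝ) ^ be v / be v) * aa (be v) c n := by
  have hc : 2 ≤ c := by omega
  have S := sysNN hv hc
  have hb := be_pos hv
  calc _ ≤ ∑ k ∈ Finset.Ico n J, ((c:ℝ) ^ be v / be v) * (aa (be v) c k * rho (be v) c k) :=
        Finset.sum_le_sum fun k _ => bc_sq_le hc' hv k
    _ = ((c:ℝ) ^ be v / be v) * (aa (be v) c n - aa (be v) c J) := by
        rw [← Finset.mul_sum, S.sum_rho n J h]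
    _ ≤ _ := by
        apply mul_le_mul_of_nonneg_left _ (by positivity)
        linarith [S.apos J]

/-- the strict greedy bound, in terms of the library's `FF` -/
lemma strict_bound (n i : ℕ) (h : i ≠ n) :
    |pp' c i * FF (aa (be v) c) (rho (be v) c) (NN v c) n i +
      qq c i * (if n ≤ i then bc v c i else 0)| ≤ (1 - ga v c n) * sc v c n := by
  have hc : 2 ≤ c := by omega
  have S := sysNN hv hc
  have hF := S.FF_abs_le n i
  set F := FF (aa (be v) c) (rho (be v) c) (NN v c) n i with hFdef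
  have hρ := rho_le_half hc' hv n
  have hρ0 := rho_pos (be_pos hv) hc n
  have hp := pp_pos hc n
  have hp1 := pp_lt hc n
  have hP := pp_pos hc i
  have hP1 := pp_lt hc i
  have ha := S.apos n
  have hai := S.apos i
  set a := aa (be v) c n with ha'
  set r := rho (be v) c n with hr
  set p := pp' c n with hpd
  set P := pp' c i with hPd
  have e1 : (1 - ga v c n) * sc v c n = a * ((1 - r) / p + r * p) := by
    unfold ga sc
    rw [← hr, ← hpd, ← ha']
    field_simp
    ring
  have h0 : a ≤ (1 - ga v c n) * sc v c n := by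
    rw [e1]
    have : 1 ≤ (1 - r) / p + r * p := by
      rw [div_add' _ _ _ hp.ne', le_div_iff₀ hp]
      have h2 : r * (1 + p) ≤ 1 := by nlinarith
      have h3 : 0 ≤ (1 - p) * (1 - r * (1 + p)) := mul_nonneg (by linarith) (by linarith)
      nlinarith
    nlinarith
  rw [abs_le] at hF
  rcases lt_or_gt_of_ne h with h1 | h1
  · -- i < n
    rw [if_neg (by omega), mul_zero, add_zero, abs_mul, abs_of_pos hP]
    have : |F| ≤ a := abs_le.2 hF
    calc P * |F| ≤ 1 * a := mul_le_mul hP1.le this (abs_nonneg _) (by norm_num)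
      _ ≤ _ := by linarith
  · rw [if_pos h1.le]
    have hq : qq c i * bc v c i = (1 - P ^ 2) / P * aa (be v) c i := by
      unfold bc sc
      have := qq_sq hc i
      rw [← hPd] at this ⊢
      calc qq c i * (aa (be v) c i / P * qq c i) = qq c i ^ 2 / P * aa (be v) c i := by ring
        _ = _ := by rw [this]
    rw [hq]
    have hq0 : 0 < (1 - P ^ 2) / P := div_pos (pp_sq_lt hc i) hP
    have hai' : aa (be v) c i ≤ a * (1 - r) := by
      have h2 := aa_anti (be_pos hv) (be_lt hv) hc (show n + 1 ≤ i from h1)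
      rw [aa_succ] at h2
      exact h2
    rw [abs_le]
    constructor
    · have h2 : 0 ≤ (1 - P ^ 2) / P * aa (be v) c i := by positivity
      have h3 : -a ≤ P * F := by nlinarith [hF.1]
      linarith
    · have h2 : (1 - P ^ 2) / P * aa (be v) c i ≤ (1 - P ^ 2) / P * (a * (1 - r)) :=
        mul_le_mul_of_nonneg_left hai' hq0.le
      have h3 : P * F ≤ P * a := mul_le_mul_of_nonneg_left hF.2 hP.le
      have h4 : P * a + (1 - P ^ 2) / P * (a * (1 - r)) = a * ((1 - r) / P + r * P) := by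
        field_simp; ring
      have h5 : (1 - r) / P + r * P ≤ (1 - r) / p + r * p := by
        have h6 := pp_mono hc h1.le
        rw [← hpd, ← hPd] at h6
        have e2 : (1 - r) / p + r * p - ((1 - r) / P + r * P) =
            (P - p) * ((1 - r) / (p * P) - r) := by field_simp; ring
        have h7 : 0 ≤ (1 - r) / (p * P) - r := by
          rw [sub_nonneg, le_div_iff₀ (by positivity)]
          have : p * P ≤ 1 := by nlinarith
          nlinarith
        have h8 : 0 ≤ (P - p) * ((1 - r) / (p * P) - r) := mul_nonneg (by linarith) h7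
        linarith
      have h6 : a * ((1 - r) / P + r * P) ≤ a * ((1 - r) / p + r * p) :=
        mul_le_mul_of_nonneg_left h5 ha.le
      rw [e1]
      linarith

end seq

end Pool.Agent.J4H62.PG
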