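import Pool.Agent.J4H62.PG.Low

/-!
# The slow function with a unique realization
-/

set_option autoImplicit false
set_option linter.all false

namespace Pool.Agent.J4H62.PG

open Real Finset Filter Topology N298.PGA

section real

variable {c : ℕ} (hc' : 2000 ≤ c) {v : ℝ} (hv : IsRoot v)
variable {H : Type*} [NormedAddCommGroup H] [InnerProductSpace ℝ H]
variable {u : ℕ → H} (hu : Orthonormal ℝ u)

noncomputable def WW (v : ℝ) (c : ℕ) (u : ℕ → H) (n J : ℕ) : H :=
  ∑ k ∈ Finset.Ico n J, bc v c k • u k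

/-- the constant `K3` -/
noncomputable def K3 (v : ℝ) (c : ℕ) : ℝ := (c:ℝ) ^ be v / be v

include hu in
lemma norm_WW (n J : ℕ) : ‖WW v c u n J‖ ^ 2 = ∑ k ∈ Finset.Ico n J, bc v c k ^ 2 := by
  rw [← real_inner_self_eq_norm_sq]
  unfold WW
  rw [hu.inner_sum]
  apply Finset.sum_congr rfl
  intro k _
  simp [sq]

include hu in
lemma inner_WW (n J i : ℕ) (hJ : i < J) :
    (inner ℝ (WW v c u n J) (u i)) = if n ≤ i then bc v c i else 0 := by
  unfold WW
  rw [sum_inner]
  have : ∀ k ∈ Finset.Ico n J, (inner ℝ (bc v c k • u k) (u i)) = if k = i then bc v c i else 0 := by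
    intro k _
    rw [real_inner_smul_left, orthonormal_iff_ite.1 hu k i]
    split_ifs with h
    · rw [h, mul_one]
    · rw [mul_zero]
  rw [Finset.sum_congr rfl this, Finset.sum_ite_eq']
  simp [hJ]

lemma WW_sub (n J : ℕ) (h : n ≤ J) : WW v c u 0 J - WW v c u 0 n = WW v c u n J := by
  unfold WW
  rw [← Finset.sum_Ico_consecutive _ (Nat.zero_le n) h]; simp

include hc' hv in
lemma K3_nonneg : 0 ≤ K3 v c := by
  have := be_pos hv
  unfold K3; positivity

include hc' hv hu in
lemma norm_WW_le (n J : ℕ) (h : n ≤ J) : ‖WW v c u n J‖ ^ 2 ≤ K3 v c * aa (be v) c n := by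
  rw [norm_WW hu]; exact bc_sum hc' hv n J h

include hc' hv hu in
theorem exists_w [CompleteSpace H] : ∃ w : H,
    (∀ n i, (inner ℝ (w - WW v c u 0 n) (u i)) = if n ≤ i then bc v c i else 0) ∧
    (∀ n, ‖w - WW v c u 0 n‖ ^ 2 ≤ K3 v c * aa (be v) c n) ∧
    (∀ x : H, (∀ i, (inner ℝ (u i) x) = 0) → (inner ℝ w x) = 0) := by
  have hc : 2 ≤ c := by omega
  have hK := K3_nonneg hc' hv
  have hcau : CauchySeq (fun J => WW v c u 0 J) := by
    apply cauchySeq_of_le_tendsto_0' (fun n => Real.sqrt (K3 v c * aa (be v) c n))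
    · intro n m hnm
      rw [dist_comm, dist_eq_norm, WW_sub n m hnm]
      exact Real.le_sqrt_of_sq_le (norm_WW_le hc' hv hu n m hnm)
    · have h1 := (aa_tendsto hc' hv).const_mul (K3 v c)
      rw [mul_zero] at h1
      have h2 := (Real.continuous_sqrt.tendsto 0).comp h1
      rw [Real.sqrt_zero] at h2
      exact h2
  obtain ⟨w, hw⟩ := cauchySeq_tendsto_of_complete hcau
  have hlim : ∀ n, Tendsto (fun J => WW v c u n J) atTop (𝓝 (w - WW v c u 0 n)) := by
    intro n
    refine (hw.sub_const _).congr' ?_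
    filter_upwards [eventually_ge_atTop n] with J hJ
    exact WW_sub n J hJ
  refine ⟨w, fun n i => ?_, fun n => ?_, fun x hx => ?_⟩
  · have h1 : Tendsto (fun J => (inner ℝ (WW v c u n J) (u i))) atTop
        (𝓝 (inner ℝ (w - WW v c u 0 n) (u i))) := (hlim n).inner tendsto_const_nhds
    refine tendsto_nhds_unique h1 (tendsto_const_nhds.congr' ?_)
    filter_upwards [eventually_gt_atTop i] with J hJ
    exact (inner_WW hu n J i hJ).symm
  · have h1 : Tendsto (fun J => ‖WW v c u n J‖ ^ 2) atTop (𝓝 (‖w - WW v c u 0 n‖ ^ 2)) :=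
      ((hlim n).norm).pow 2
    apply le_of_tendsto h1
    filter_upwards [eventually_ge_atTop n] with J hJ
    exact norm_WW_le hc' hv hu n J hJ
  · have h1 : Tendsto (fun J => (inner ℝ (WW v c u 0 J) x)) atTop (𝓝 (inner ℝ w x)) :=
      hw.inner tendsto_const_nhds
    have h2 : (fun J => (inner ℝ (WW v c u 0 J) x)) = fun _ => (0:ℝ) := by
      ext J
      unfold WW
      rw [sum_inner]
      apply Finset.sum_eq_zero
      intro k _
      rw [real_inner_smul_left, hx k, mul_zero]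
    rw [h2] at h1
    exact tendsto_nhds_unique h1 tendsto_const_nhds

end real

/-- the lower bound for the residual, from the library's estimate -/
lemma dd_lower {v : ℝ} (hv : IsRoot v) {c : ℕ} (hc' : 2000 ≤ c) (m : ℕ) (hm : 1 ≤ m) :
    ((c:ℝ) ^ (-((1 - v) / (2 * (1 + v)))) * (m:ℝ) ^ (-((1 - v) / (2 * (1 + v))))) ^ 2 ≤ dd v c m := by
  have hc : 2 ≤ c := by omega
  have hb := be_pos hv
  have hb1 := be_lt hv
  have hvp := hv.pos
  have hmr : (1:ℝ) ≤ m := by exact_mod_cast hm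
  have hcr2 : (2000:ℝ) ≤ c := by exact_mod_cast hc'
  have hcr : (0:ℝ) < c := by linarith
  have hcm : (0:ℝ) < c * m := by positivity
  have hnu : nu c m - 1 ≤ c * m := by
    have e : nu c m = (m:ℝ) + c := rfl
    rw [e]; nlinarith
  have hnu2 : 0 < nu c m - 1 := by have := two_le_nu hc m; linarith
  have hQ := Q_mono hb hb1 hc (Nat.zero_le m)
  simp only [aa_zero, one_mul] at hQ
  have h0 : 1 ≤ (nu c 0 - 1) ^ be v := by
    apply Real.one_le_rpow _ hb.le
    have e : nu c 0 = c := by simp [nu]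
    rw [e]; linarith
  have ham : (nu c m - 1) ^ (-(be v)) ≤ aa (be v) c m := by
    have hp : 0 < (nu c m - 1) ^ be v := Real.rpow_pos_of_pos hnu2 _
    rw [Real.rpow_neg hnu2.le, inv_le_iff_one_le_mul₀ hp]
    linarith
  have hd : (nu c m - 1) ^ (1 - 2 * be v) ≤ dd v c m := by
    unfold dd
    have h1 : (nu c m - 1) ^ (1 - 2 * be v) = (nu c m - 1) * ((nu c m - 1) ^ (-(be v))) ^ 2 := by
      rw [← Real.rpow_natCast, ← Real.rpow_mul hnu2.le]
      conv_rhs => rw [← Real.rpow_one (nu c m - 1)]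
      rw [Real.rpow_one, ← Real.rpow_one_add' hnu2.le]
      · congr 1; push_cast; ring
      · push_cast; linarith [be_gt hv]
    rw [h1]
    apply mul_le_mul_of_nonneg_left _ hnu2.le
    exact pow_le_pow_left₀ (by positivity) ham 2
  have hal : (1 - 2 * be v) = 2 * (-((1 - v) / (2 * (1 + v)))) := by
    unfold be; field_simp; ring
  have hcmp : (c * m : ℝ) ^ (1 - 2 * be v) ≤ (nu c m - 1) ^ (1 - 2 * be v) :=
    Real.rpow_le_rpow_of_nonpos hnu2 hnu (by linarith [be_gt hv])
  calc _ = (c * m : ℝ) ^ (1 - 2 * be v) := by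
        rw [← Real.mul_rpow hcr.le (by linarith), hal, ← Real.rpow_natCast, ← Real.rpow_mul hcm.le]
        congr 1; push_cast; ring
    _ ≤ _ := hcmp.trans hd

/-- **The lower bound, for every realization and every mild weakness.** -/
theorem low {v : ℝ} (hv : IsRoot v) : ∃ κ δ : ℝ, 0 < κ ∧ 0 < δ ∧
    ∀ (H : Type*) [NormedAddCommGroup H] [InnerProductSpace ℝ H] [CompleteSpace H],
      ¬ FiniteDimensional ℝ H → ∃ (D : Set H) (f : H) (φ0 G0 : ℕ → H),
        IsDictionary D ∧ f ∈ A1 D ∧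
        (∀ m : ℕ, 1 ≤ m → κ * (m:ℝ) ^ (-((1 - v) / (2 * (1 + v)))) ≤ ‖f - G0 m‖) ∧
        ∀ (τ : ℕ → ℝ) (m : ℕ),
          (∀ k : ℕ, 1 ≤ k → k ≤ m → 1 - δ * (k:ℝ) ^ (-(4/3) : ℝ) ≤ τ k ∧ τ k ≤ 1) →
          IsWGA D f τ m φ0 G0 ∧ ∀ φ G : ℕ → H, IsWGA D f τ m φ G →
            (∀ k < m, φ (k+1) = φ0 (k+1)) ∧ ∀ k ≤ m, G k = G0 k := by
  set c : ℕ := 2000 with hcdef
  have hc' : 2000 ≤ c := le_rfl
  have hc : 2 ≤ c := by omega
  have hcr : (0:ℝ) < c := by rw [hcdef]; norm_num
  have S := sysNN hv hc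
  have hb := be_pos hv
  have hb1 := be_lt hv
  have hvp := hv.pos
  set K1 : ℝ := (8 * c + 100) / be v with hK1
  have hK1p : 0 < K1 := by positivity
  have hK3 := K3_nonneg hc' hv
  have hW0 : 0 ≤ Wb v c 0 := (dd_nonneg hc' 0).trans (dd_le hc' hv 0)
  set K : ℝ := K1 + K3 v c with hKdef
  have hKp : 0 < K := by linarith
  set B : ℝ := 4 * Real.sqrt (Wb v c 0) + Real.sqrt (K3 v c) with hB
  have hBp : 0 ≤ B := by positivity
  set α : ℝ := (1 - v) / (2 * (1 + v)) with hα
  refine ⟨(c:ℝ) ^ (-α) / (2 * K + B + 1), be v * (c:ℝ) ^ (-(4/3) : ℝ) / 8, by positivity,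
    by positivity, ?_⟩
  intro H _ _ _ hH
  obtain ⟨φ, u, b, hφ, hu, hb1', hbφ, hbu, huφ⟩ :=
    realize2 (Gm (aa (be v) c) (rho (be v) c) (NN v c))
    (fun i j => Gm_symm i j) (by
      intro n x
      have := QQ_ge hv hc' n x
      have h2 : 0 ≤ ∑ i ∈ range n, x i ^ 2 := Finset.sum_nonneg fun i _ => sq_nonneg _
      unfold QQ at this
      linarith) H hH
  obtain ⟨f0, P1, P2, P3, P4, P5⟩ := exists_f0 hc' hv hφ
  obtain ⟨w, R1, R2, R3⟩ := exists_w hc' hv hu
  have hf0u : ∀ i, (inner ℝ f0 (u i)) = 0 := fun i =>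
    P5 _ (fun j => by rw [real_inner_comm]; exact huφ j i)
  have hwφ : ∀ i, (inner ℝ w (φ i)) = 0 := fun i => R3 _ (fun j => huφ i j)
  have hSu : ∀ n i, (inner ℝ (SS v c φ 0 n) (u i)) = 0 := by
    intro n i
    unfold SS
    rw [sum_inner, Finset.sum_eq_zero]
    intro k _
    rw [real_inner_smul_left, real_inner_comm, huφ k i, mul_zero]
  have hWφ : ∀ n i, (inner ℝ (WW v c u 0 n) (φ i)) = 0 := by
    intro n i
    unfold WW
    rw [sum_inner, Finset.sum_eq_zero]
    intro k _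
    rw [real_inner_smul_left, huφ i k, mul_zero]
  have hxu : ∀ n i, (inner ℝ (f0 - SS v c φ 0 n) (u i)) = 0 := by
    intro n i; rw [inner_sub_left, hf0u, hSu, sub_zero]
  have hxφ : ∀ n i, (inner ℝ (w - WW v c u 0 n) (φ i)) = 0 := by
    intro n i; rw [inner_sub_left, hwφ, hWφ, sub_zero]
  have hφn : ∀ i, ‖φ i‖ ^ 2 = 1 := fun i => by
    rw [← real_inner_self_eq_norm_sq, hφ, Gm_self]
  set ψ : ℕ → H := fun i => pp' c i • φ i + qq c i • u i with hψ
  set g0 : H := f0 + w with hg0def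
  have hψn : ∀ i, ‖ψ i‖ = 1 := by
    intro i
    have h1 : ‖ψ i‖ ^ 2 = 1 := by
      rw [hψ]; simp only
      rw [norm_add_sq_real, norm_smul, norm_smul, real_inner_smul_left, real_inner_smul_right,
        real_inner_comm (u i) (φ i), huφ i i, mul_pow, mul_pow, hφn, hu.1 i, Real.norm_eq_abs,
        Real.norm_eq_abs, sq_abs, sq_abs, qq_sq hc i]
      ring
    have h2 := norm_nonneg (ψ i)
    nlinarith
  have hstep : ∀ k, sc v c k • ψ k = aa (be v) c k • φ k + bc v c k • u k := by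
    intro k
    rw [hψ]; simp only
    rw [smul_add, smul_smul, smul_smul]
    congr 2
    unfold sc
    have := (pp_pos hc k).ne'
    field_simp
  have hrr : ∀ n, rr ψ (sc v c) g0 n = (f0 - SS v c φ 0 n) + (w - WW v c u 0 n) := by
    intro n
    unfold rr SS WW
    simp only [hstep, Finset.sum_add_distrib, Finset.range_eq_Ico, hg0def]
    abel
  have hinn : ∀ n i, (inner ℝ (rr ψ (sc v c) g0 n) (ψ i)) =
      pp' c i * FF (aa (be v) c) (rho (be v) c) (NN v c) n i +
      qq c i * (if n ≤ i then bc v c i else 0) := by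
    intro n i
    rw [hrr, hψ]; simp only
    rw [inner_add_left, inner_add_right, inner_add_right, real_inner_smul_right,
      real_inner_smul_right, real_inner_smul_right, real_inner_smul_right, P1, hxu, hxφ, R1]
    ring
  have hA : ∀ n, (inner ℝ (rr ψ (sc v c) g0 n) (ψ n)) = sc v c n := by
    intro n
    rw [hinn, FF_self, if_pos le_rfl]
    have h1 := qq_sq hc n
    have h2 := (pp_pos hc n).ne'
    unfold bc
    have h3 : qq c n * (sc v c n * qq c n) = sc v c n * (1 - pp' c n ^ 2) := by rw [← h1]; ring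
    rw [h3]
    unfold sc
    field_simp
    ring
  have hperp : ∀ n, (inner ℝ (f0 - SS v c φ 0 n) w) = 0 := by
    intro n; rw [real_inner_comm]
    exact R3 _ (fun i => by rw [real_inner_comm]; exact hxu n i)
  have hperp2 : ∀ n, (inner ℝ (w - WW v c u 0 n) f0) = 0 := by
    intro n; rw [real_inner_comm]
    exact P5 _ (fun i => by rw [real_inner_comm]; exact hxφ n i)
  have hperp3 : ∀ n, (inner ℝ (f0 - SS v c φ 0 n) (w - WW v c u 0 n)) = 0 := by
    intro n
    rw [inner_sub_right, hperp, zero_sub, neg_eq_zero]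
    unfold WW
    rw [inner_sum, Finset.sum_eq_zero]
    intro k _
    rw [real_inner_smul_right, hxu, mul_zero]
  have hww : ∀ n, (inner ℝ (w - WW v c u 0 n) w) = ‖w - WW v c u 0 n‖ ^ 2 := by
    intro n
    have h1 : (inner ℝ (w - WW v c u 0 n) (WW v c u 0 n)) = 0 := by
      conv_lhs => rw [show WW v c u 0 n = ∑ k ∈ Finset.Ico 0 n, bc v c k • u k from rfl]
      rw [inner_sum, Finset.sum_eq_zero]
      intro k hk
      rw [Finset.mem_Ico] at hk
      have h2 := R1 n k
      rw [if_neg (by omega)] at h2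
      rw [real_inner_smul_right]
      have h3 : (∑ k ∈ Finset.Ico 0 n, bc v c k • u k) = WW v c u 0 n := rfl
      rw [h3, h2, mul_zero]
    have h2 : (inner ℝ (w - WW v c u 0 n) w) = (inner ℝ (w - WW v c u 0 n) (w - WW v c u 0 n)) +
        (inner ℝ (w - WW v c u 0 n) (WW v c u 0 n)) := by
      rw [← inner_add_right, sub_add_cancel]
    rw [h2, h1, add_zero, real_inner_self_eq_norm_sq]
  have hsa : ∀ n, aa (be v) c n ≤ sc v c n := by
    intro n
    unfold sc
    rw [le_div_iff₀ (pp_pos hc n)]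
    have := pp_lt hc n
    nlinarith [S.apos n]
  have hC : ∀ n, |(inner ℝ (rr ψ (sc v c) g0 n) g0)| ≤ K * sc v c n := by
    intro n
    rw [hrr, hg0def, inner_add_left, inner_add_right, inner_add_right, hperp, hperp2, hww, add_zero,
      zero_add]
    have h1 := P4 n
    have h2 := R2 n
    have h3 : |(inner ℝ (f0 - SS v c φ 0 n) f0) + ‖w - WW v c u 0 n‖ ^ 2| ≤
        K1 * aa (be v) c n + K3 v c * aa (be v) c n := by
      refine (abs_add_le _ _).trans (add_le_add h1 ?_)
      rw [abs_of_nonneg (by positivity)]; exact h2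
    have h4 : K1 * aa (be v) c n + K3 v c * aa (be v) c n = K * aa (be v) c n := by
      rw [hKdef]; ring
    rw [h4] at h3
    exact h3.trans (mul_le_mul_of_nonneg_left (hsa n) hKp.le)
  have hbψ : ∀ i, (inner ℝ b (ψ i)) = 0 := by
    intro i
    rw [hψ]; simp only
    rw [inner_add_right, real_inner_smul_right, real_inner_smul_right, hbφ, hbu]; ring
  -- the residuals tend to zero
  have hf0lim : Tendsto (fun n => f0 - SS v c φ 0 n) atTop (𝓝 0) := by
    have h1 : ∀ n, ‖f0 - SS v c φ 0 n‖ ^ 2 ≤ K1 * aa (be v) c n + 5 * Wb v c n := by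
      intro n
      have e1 : ‖f0 - SS v c φ 0 n‖ ^ 2 = (inner ℝ (f0 - SS v c φ 0 n) f0) -
          (inner ℝ (f0 - SS v c φ 0 n) (SS v c φ 0 n)) := by
        rw [← inner_sub_right, real_inner_self_eq_norm_sq]
      have e2 : (inner ℝ (f0 - SS v c φ 0 n) (SS v c φ 0 n)) = ∑ k ∈ Finset.Ico 0 n,
          aa (be v) c k * FF (aa (be v) c) (rho (be v) c) (NN v c) n k := by
        conv_lhs => rw [show inner ℝ (f0 - SS v c φ 0 n) (SS v c φ 0 n) =
          inner ℝ (f0 - SS v c φ 0 n) (∑ k ∈ Finset.Ico 0 n, aa (be v) c k • φ k) from rfl]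
        rw [inner_sum]
        apply Finset.sum_congr rfl
        intro k _
        rw [real_inner_smul_right, P1]
      have h3 : |∑ k ∈ Finset.Ico 0 n, aa (be v) c k *
          FF (aa (be v) c) (rho (be v) c) (NN v c) n k| ≤ 5 * Wb v c n := by
        calc _ ≤ ∑ k ∈ Finset.Ico 0 n, |aa (be v) c k *
              FF (aa (be v) c) (rho (be v) c) (NN v c) n k| := Finset.abs_sum_le_sum_abs _ _
          _ ≤ ∑ k ∈ Finset.Ico 0 n, aa (be v) c k * aa (be v) c n := by
              apply Finset.sum_le_sum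
              intro k _
              rw [abs_mul, abs_of_pos (S.apos k)]
              exact mul_le_mul_of_nonneg_left (S.FF_abs_le n k) (S.apos k).le
          _ = aa (be v) c n * ∑ k ∈ Finset.Ico 0 n, aa (be v) c k := by
              rw [Finset.mul_sum]; apply Finset.sum_congr rfl; intro k _; ring
          _ ≤ _ := aJ_sum hc' hv 0 n (Nat.zero_le n)
      rw [e1, e2]
      have h4 := (abs_le.1 h3).1
      have h5 := (abs_le.1 (P4 n)).2
      rw [← hK1] at h5
      linarith
    rw [tendsto_zero_iff_norm_tendsto_zero]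
    have h2 : Tendsto (fun n => K1 * aa (be v) c n + 5 * Wb v c n) atTop (𝓝 0) := by
      have := ((aa_tendsto hc' hv).const_mul K1).add ((Wb_tendsto (c := c) hv).const_mul 5)
      simpa using this
    have h3 : Tendsto (fun n => Real.sqrt (K1 * aa (be v) c n + 5 * Wb v c n)) atTop (𝓝 0) := by
      have h4 := (Real.continuous_sqrt.tendsto 0).comp h2
      rw [Real.sqrt_zero] at h4
      exact h4
    exact squeeze_zero (fun n => norm_nonneg _) (fun n => Real.le_sqrt_of_sq_le (h1 n)) h3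
  have hwlim : Tendsto (fun n => w - WW v c u 0 n) atTop (𝓝 0) := by
    rw [tendsto_zero_iff_norm_tendsto_zero]
    have h3 : Tendsto (fun n => Real.sqrt (K3 v c * aa (be v) c n)) atTop (𝓝 0) := by
      have h1 := (aa_tendsto hc' hv).const_mul (K3 v c)
      rw [mul_zero] at h1
      have h4 := (Real.continuous_sqrt.tendsto 0).comp h1
      rw [Real.sqrt_zero] at h4
      exact h4
    exact squeeze_zero (fun n => norm_nonneg _) (fun n => Real.le_sqrt_of_sq_le (R2 n)) h3
  have hg0 : ∀ x : H, (∀ i, (inner ℝ (ψ i) x) = 0) → (inner ℝ g0 x) = 0 := by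
    intro x hx
    have h1 : Tendsto (fun n => (inner ℝ (rr ψ (sc v c) g0 n) x)) atTop (𝓝 0) := by
      have h2 : Tendsto (fun n => rr ψ (sc v c) g0 n) atTop (𝓝 0) := by
        have := hf0lim.add hwlim
        rw [add_zero] at this
        exact this.congr (fun n => (hrr n).symm)
      have h4 : Tendsto (fun n => (inner ℝ (rr ψ (sc v c) g0 n) x)) atTop (𝓝 (inner ℝ (0:H) x)) :=
        h2.inner tendsto_const_nhds
      rwa [inner_zero_left] at h4
    have h3 : (fun n => (inner ℝ (rr ψ (sc v c) g0 n) x)) = fun _ => (inner ℝ g0 x) := by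
      ext n
      unfold rr
      rw [inner_sub_left, sum_inner, Finset.sum_eq_zero, sub_zero]
      intro k _
      rw [real_inner_smul_left, hx k, mul_zero]
    rw [h3] at h1
    exact tendsto_nhds_unique tendsto_const_nhds h1
  obtain ⟨D, f, φ0, G0, hD, hf, hres, hU⟩ := dict ψ (sc v c) (ga v c) g0 b K hψn
    (fun k => sc_pos hc' hv k) (fun k => ga_pos hc' hv k) (fun k => ga_le hc' hv k) hA
    (fun n i h => by rw [hinn]; exact strict_bound hc' hv n i h) hKp.le hC hb1' hbψ hg0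
  have hg0n : ‖g0‖ ≤ B := by
    have h1 : ‖f0‖ ≤ Real.sqrt (16 * Wb v c 0) := Real.le_sqrt_of_sq_le P3
    have h2 : Real.sqrt (16 * Wb v c 0) = 4 * Real.sqrt (Wb v c 0) := by
      rw [Real.sqrt_mul (by norm_num)]
      congr 1
      rw [show (16:ℝ) = 4 ^ 2 by norm_num, Real.sqrt_sq (by norm_num)]
    have h3 : ‖w‖ ≤ Real.sqrt (K3 v c) := by
      apply Real.le_sqrt_of_sq_le
      have := R2 0
      simp only [WW, Finset.Ico_self, Finset.sum_empty, sub_zero, aa_zero, mul_one] at this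
      exact this
    rw [h2] at h1
    exact (norm_add_le _ _).trans (add_le_add h1 h3)
  refine ⟨D, f, φ0, G0, hD, hf, ?_, ?_⟩
  · intro m hm
    rw [hres m, norm_smul, norm_inv, Real.norm_eq_abs,
      abs_of_pos (by positivity : 0 < 2 * K + ‖g0‖ + 1)]
    have h1 : (c:ℝ) ^ (-α) * (m:ℝ) ^ (-α) ≤ ‖rr ψ (sc v c) g0 m‖ := by
      apply le_of_sq_le_sq _ (norm_nonneg _)
      refine (dd_lower hv hc' m hm).trans ((P2 m).trans ?_)
      rw [hrr, norm_add_sq_real, hperp3]
      have : 0 ≤ ‖w - WW v c u 0 m‖ ^ 2 := by positivity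
      linarith
    have h2 : 0 ≤ (c:ℝ) ^ (-α) * (m:ℝ) ^ (-α) := by positivity
    calc (c:ℝ) ^ (-α) / (2 * K + B + 1) * (m:ℝ) ^ (-α) =
        (2 * K + B + 1)⁻¹ * ((c:ℝ) ^ (-α) * (m:ℝ) ^ (-α)) := by ring
      _ ≤ (2 * K + ‖g0‖ + 1)⁻¹ * ((c:ℝ) ^ (-α) * (m:ℝ) ^ (-α)) := by
          apply mul_le_mul_of_nonneg_right _ h2
          apply inv_anti₀ (by positivity)
          linarith
      _ ≤ _ := mul_le_mul_of_nonneg_left h1 (by positivity)
  · intro τ m hτ
    apply hU τ m
    intro k hk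
    have h1 := hτ (k+1) (by omega) (by omega)
    refine ⟨?_, h1.2⟩
    have h2 : be v * (c:ℝ) ^ (-(4/3) : ℝ) / 8 * ((k+1 : ℕ):ℝ) ^ (-(4/3) : ℝ) < ga v c k := by
      have hν := nu_pos hc k
      have h3 : nu c k ≤ c * ((k+1 : ℕ):ℝ) := by
        have e : nu c k = (k:ℝ) + c := rfl
        have : (1:ℝ) ≤ c := by rw [hcdef]; norm_num
        have hk0 : (0:ℝ) ≤ k := Nat.cast_nonneg k
        push_cast
        rw [e]; nlinarith
      have h4 : (c:ℝ) ^ (-(4/3) : ℝ) * ((k+1 : ℕ):ℝ) ^ (-(4/3) : ℝ) ≤ (nu c k) ^ (-(4/3) : ℝ) := by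
        rw [← Real.mul_rpow hcr.le (by positivity)]
        exact Real.rpow_le_rpow_of_nonpos hν h3 (by norm_num)
      have h5 : rho (be v) c k * ep c k ≤ ga v c k :=
        mul_le_mul_of_nonneg_left (ep_le_ga hc k) (rho_pos hb hc k).le
      have h6 : rho (be v) c k * ep c k = be v * (nu c k) ^ (-(4/3) : ℝ) / 4 := by
        unfold rho ep
        have : (nu c k) ^ (-(4/3) : ℝ) = (nu c k) ^ (-(1/3) : ℝ) * (nu c k)⁻¹ := by
          rw [← Real.rpow_neg_one (nu c k), ← Real.rpow_add hν]; norm_num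
        rw [this]; ring
      have h7 : 0 < (nu c k) ^ (-(4/3) : ℝ) := by positivity
      have h8 := mul_le_mul_of_nonneg_left h4 hb.le
      have h9 := mul_pos hb h7
      nlinarith
    linarith [h1.1]

end Pool.Agent.J4H62.PG
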