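import Pool.Agent.J4H62.PG.Defs
import Pool.Agent.N298.PGA.Upper2

/-!
# The upper bound for mildly weak greedy algorithms: the functional argument
-/

set_option autoImplicit false
set_option linter.all false

namespace Pool.Agent.J4H62.PG

open Real Finset MeasureTheory N298.PGA

/-- data of the weak greedy algorithm up to step `N`, with losses `ε` -/
structure DW (N : ℕ) (a E σ ε : ℕ → ℝ) : Prop where
  apos : ∀ k < N, 0 < a k
  s0 : σ 0 = 1
  s : ∀ k < N, σ (k+1) = σ k + a k
  e : ∀ k < N, E (k+1) = E k - a k ^ 2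
  e0 : E 0 ≤ 1
  epos : 0 ≤ E N
  key : ∀ n k, n ≤ k → k < N → (1 - ε n) * E n ≤ a k * σ n + a n * (σ k - σ n)

variable {N : ℕ} {a E σ ε : ℕ → ℝ}

namespace DW

variable (D : DW N a E σ ε)
include D

lemma s_mono {i j : ℕ} (h : i ≤ j) (hj : j ≤ N) : σ i ≤ σ j := by
  induction j, h using Nat.le_induction with
  | base => exact le_rfl
  | succ j hij ih =>
    rw [D.s j (by omega)]
    linarith [ih (by omega), D.apos j (by omega)]

lemma Ec_anti {x y : ℝ} (h : x ≤ y) : Ec N a E σ y ≤ Ec N a E σ x := by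
  unfold Ec
  have : ∑ i ∈ range N, a i * ck (a i) (x - σ i) ≤ ∑ i ∈ range N, a i * ck (a i) (y - σ i) := by
    apply Finset.sum_le_sum
    intro i hi
    rw [Finset.mem_range] at hi
    exact mul_le_mul_of_nonneg_left (ck_mono _ (by linarith)) (D.apos i hi).le
  linarith

lemma e_sum {k : ℕ} (hk : k ≤ N) : E k = E 0 - ∑ i ∈ range k, a i ^ 2 := by
  induction k with
  | zero => simp
  | succ k ih => rw [D.e k (by omega), ih (by omega), Finset.sum_range_succ]; ring

lemma s_sum {k : ℕ} (hk : k ≤ N) : σ k = 1 + ∑ i ∈ range k, a i := by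
  induction k with
  | zero => simp [D.s0]
  | succ k ih => rw [D.s k (by omega), ih (by omega), Finset.sum_range_succ]; ring

lemma Ec_piece {k : ℕ} (hk : k < N) {x : ℝ} (h1 : σ k ≤ x) (h2 : x ≤ σ (k+1)) :
    Ec N a E σ x = E k - a k * (x - σ k) := by
  unfold Ec
  rw [D.e_sum hk.le]
  have h3 : ∑ i ∈ range N, a i * ck (a i) (x - σ i) =
      ∑ i ∈ range k, a i ^ 2 + a k * (x - σ k) := by
    have h4 : range (k+1) ⊆ range N := Finset.range_subset_range.2 hk
    rw [← Finset.sum_subset h4]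
    · rw [Finset.sum_range_succ]
      congr 1
      · apply Finset.sum_congr rfl
        intro i hi
        rw [Finset.mem_range] at hi
        have h5 := D.s_mono (show i + 1 ≤ k from hi) hk.le
        rw [D.s i (by omega)] at h5
        rw [ck_full (D.apos i (by omega)).le (by linarith)]; ring
      · rw [D.s k hk] at h2
        rw [ck_mid (by linarith) (by linarith)]
    · intro i hi hi2
      rw [Finset.mem_range] at hi hi2
      have h5 := D.s_mono (show k + 1 ≤ i by omega) hi.le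
      rw [ck_zero (by linarith), mul_zero]
  rw [h3]; ring

lemma Ec_one : Ec N a E σ 1 = E 0 := by
  unfold Ec
  rw [Finset.sum_eq_zero, sub_zero]
  intro i hi
  rw [Finset.mem_range] at hi
  have h5 := D.s_mono (Nat.zero_le i) hi.le
  rw [D.s0] at h5
  rw [ck_zero (by linarith), mul_zero]

lemma Ec_N : Ec N a E σ (σ N) = E N := by
  rcases Nat.eq_zero_or_pos N with h | h
  · subst h; simp [Ec]
  · obtain ⟨k, rfl⟩ : ∃ k, N = k + 1 := ⟨N - 1, by omega⟩
    rw [D.Ec_piece (k := k) (by omega) (D.s_mono (by omega) le_rfl) le_rfl, D.e k (by omega),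
      D.s k (by omega)]
    ring

lemma find_piece {x : ℝ} (h0 : 1 ≤ x) {M : ℕ} (hM : M ≤ N) (h1 : x < σ M) :
    ∃ k < M, σ k ≤ x ∧ x < σ (k+1) := by
  induction M with
  | zero => rw [D.s0] at h1; linarith
  | succ M ih =>
    by_cases h : x < σ M
    · obtain ⟨k, hk, h2⟩ := ih (by omega) h
      exact ⟨k, by omega, h2⟩
    · exact ⟨M, by omega, by linarith, h1⟩

lemma Ec_deriv {k : ℕ} (hk : k < N) {x : ℝ} (h1 : σ k ≤ x) (h2 : x < σ (k+1)) :
    HasDerivWithinAt (Ec N a E σ) (-(a k)) (Set.Ici x) x := by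
  have h : HasDerivWithinAt (fun x => E k - a k * (x - σ k)) (-(a k)) (Set.Ici x) x := by
    have := (((hasDerivAt_id x).sub_const (σ k)).const_mul (a k)).const_sub (E k)
    simpa using this.hasDerivWithinAt
  refine h.congr_of_eventuallyEq ?_ (D.Ec_piece hk h1 h2.le)
  have : Set.Ico x (σ (k+1)) ∈ nhdsWithin x (Set.Ici x) := Ico_mem_nhdsGE h2
  filter_upwards [this] with w hw
  exact D.Ec_piece hk (h1.trans hw.1) hw.2.le

lemma E_anti {i j : ℕ} (h : i ≤ j) (hj : j ≤ N) : E j ≤ E i := by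
  rw [D.e_sum hj, D.e_sum (h.trans hj)]
  have : ∑ i ∈ range i, a i ^ 2 ≤ ∑ i ∈ range j, a i ^ 2 :=
    Finset.sum_le_sum_of_subset_of_nonneg (Finset.range_subset_range.2 h)
      (fun i _ _ => sq_nonneg _)
  linarith

lemma E_nonneg {k : ℕ} (hk : k ≤ N) : 0 ≤ E k := D.epos.trans (D.E_anti hk le_rfl)

/-- the number of steps before the variation reaches `x` -/
lemma index_bound {k : ℕ} (hk : k < N) {x : ℝ} (h1 : 1 ≤ x) (h2 : x < σ (k+1)) :
    x ^ 2 / 4 ≤ k + 1 := by
  have h3 : (∑ i ∈ range (k+1), a i) ^ 2 ≤ k + 1 := by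
    have h4 := Finset.sum_mul_sq_le_sq_mul_sq (range (k+1)) a (fun _ => (1:ℝ))
    simp only [mul_one, one_pow, Finset.sum_const, Finset.card_range, nsmul_eq_mul] at h4
    have h5 := D.e_sum (show k + 1 ≤ N from hk)
    have h6 := D.E_nonneg (show k + 1 ≤ N from hk)
    have h7 : ∑ i ∈ range (k+1), a i ^ 2 ≤ 1 := by linarith [D.e0]
    have h8 : (∑ i ∈ range (k+1), a i ^ 2) * ((k+1 : ℕ):ℝ) ≤ 1 * ((k+1 : ℕ):ℝ) :=
      mul_le_mul_of_nonneg_right h7 (by positivity)
    have h9 : (((k+1 : ℕ):ℝ)) = k + 1 := by push_cast; ring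
    rw [h9] at h8 h4
    linarith
  have h4 := D.s_sum (show k + 1 ≤ N from hk)
  have hk0 : (0:ℝ) ≤ k := Nat.cast_nonneg k
  rcases le_or_gt x 2 with h | h
  · nlinarith
  · have h5 : x - 1 < ∑ i ∈ range (k+1), a i := by linarith
    have h6 : (x - 1) ^ 2 ≤ (∑ i ∈ range (k+1), a i) ^ 2 :=
      pow_le_pow_left₀ (by linarith) h5.le 2
    nlinarith

end DW

/-- **Bound for the data of the weak greedy algorithm.** -/
theorem DW.bound (D : DW N a E σ ε) {v : ℝ} (hv : IsRoot v) {δ : ℝ} (hδ0 : 0 ≤ δ)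
    (hδ : δ ≤ 1 / (16 * (1 / (1 - v ^ 2)) ^ ((1 - v) / v + 1)))
    (hε : ∀ n, ε n ≤ δ / (n + 1)) :
    E N * σ N ^ ((1 - v) / v) ≤ 2 * (1 / (1 - v ^ 2)) ^ ((1 - v) / v + 2) := by
  have hvp := hv.pos
  have hv1 := hv.lt_one
  have hvlo := hv.lo
  have hvhi := hv.hi
  have h1v : 0 < 1 - v ^ 2 := by nlinarith
  set lam : ℝ := 1 / (1 - v ^ 2) with hlam
  set g : ℝ := (1 - v) / v with hg
  have hlp : 0 < lam := by positivity
  have hl1 : 1 < lam := by rw [hlam, lt_div_iff₀ h1v]; nlinarith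
  have hgp : 1 < g := by rw [hg, lt_div_iff₀ hvp]; linarith
  -- λ^g = (1-v²)²/v
  have hlg : lam ^ g = (1 - v ^ 2) ^ 2 / v := by
    have h1 := hv.pow_inv
    have h2 : (1 / v) = g + 1 := by rw [hg]; field_simp; ring
    rw [h2, Real.rpow_add_one h1v.ne'] at h1
    have h3 : (1 - v ^ 2) ^ g = v / (1 - v ^ 2) ^ 2 := by
      field_simp at h1 ⊢
      linarith
    rw [hlam, one_div, Real.inv_rpow h1v.le, h3, inv_div]
  set q : ℝ := v / (1 - v ^ 2) with hq
  have hqp : 0 < q := by positivity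
  have hid : (lam - 1) * g + g * q = 1 := by
    rw [hlam, hg, hq]
    have : 1 - v ^ 2 = (1 - v) * (1 + v) := by ring
    rw [this]
    have h2 : (1 - v) ≠ 0 := by linarith
    have h3 : (1 + v) ≠ 0 := by linarith
    field_simp
    ring
  have hqlg : q * lam ^ g = 1 / lam := by
    rw [hlg, hq, hlam]; field_simp
  have hN1 : 1 ≤ σ N := by
    have := D.s_mono (Nat.zero_le N) le_rfl
    rw [D.s0] at this; exact this
  have hENE : ∀ x, x ≤ σ N → 0 ≤ Ec N a E σ x := by
    intro x hx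
    have := D.Ec_anti hx
    rw [D.Ec_N] at this
    linarith [D.epos]
  have hE1 : ∀ x, 1 ≤ x → Ec N a E σ x ≤ 1 := by
    intro x hx
    have := D.Ec_anti hx
    rw [D.Ec_one] at this
    linarith [D.e0]
  have hgc : Continuous (fun t : ℝ => t ^ (g - 1) * Ec N a E σ t) :=
    (Real.continuous_rpow_const (by linarith)).mul Ec_cont
  -- the maximum of `Y x = x ^ g * E x`
  have hYc : Continuous (fun x : ℝ => x ^ g * Ec N a E σ x) :=
    (Real.continuous_rpow_const (by linarith)).mul Ec_cont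
  obtain ⟨x0, hx0, hmax⟩ := (isCompact_Icc (a := (1:ℝ)) (b := σ N)).exists_isMaxOn
    ⟨1, Set.left_mem_Icc.2 hN1⟩ hYc.continuousOn
  set M : ℝ := x0 ^ g * Ec N a E σ x0 with hM
  have hMx : ∀ x, 1 ≤ x → x ≤ σ N → x ^ g * Ec N a E σ x ≤ M := fun x h1 h2 => hmax ⟨h1, h2⟩
  have hM0 : 0 ≤ M := mul_nonneg (Real.rpow_nonneg (by linarith [hx0.1]) _) (hENE x0 hx0.2)
  have hfinal : M ≤ 2 * lam ^ (g + 2) → E N * σ N ^ g ≤ 2 * lam ^ (g + 2) := by
    intro h
    have h1 := hMx (σ N) hN1 le_rfl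
    rw [D.Ec_N] at h1
    calc E N * σ N ^ g = σ N ^ g * E N := by ring
      _ ≤ _ := h1.trans h
  apply hfinal
  have hlg2 : lam ^ g ≤ 2 * lam ^ (g + 2) := by
    have h2 : lam ^ g ≤ lam ^ (g + 2) := Real.rpow_le_rpow_of_exponent_le hl1.le (by linarith)
    have h3 : 0 < lam ^ (g + 2) := by positivity
    linarith
  rcases lt_or_ge x0 lam with hsm | hbig
  · -- trivial case
    have h1 : x0 ^ g ≤ lam ^ g := Real.rpow_le_rpow (by linarith [hx0.1]) hsm.le (by linarith)
    calc M ≤ x0 ^ g * 1 :=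
          mul_le_mul_of_nonneg_left (hE1 x0 hx0.1) (Real.rpow_nonneg (by linarith [hx0.1]) _)
      _ ≤ _ := by linarith
  -- main case
  set Sg : ℝ := x0 / lam with hSg
  have hSg1 : 1 ≤ Sg := by rw [hSg, le_div_iff₀ hlp]; linarith
  have hlS : lam * Sg = x0 := by rw [hSg]; field_simp
  set F : ℝ → ℝ := fun y => ∫ t in (1:ℝ)..y, t ^ (g - 1) * Ec N a E σ t with hF
  have hFd : ∀ y, HasDerivAt F (y ^ (g - 1) * Ec N a E σ y) y := fun y =>
    (hgc.integral_hasStrictDerivAt 1 y).hasDerivAt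
  set Φ : ℝ → ℝ := fun x => (lam - 1) * (x ^ g * Ec N a E σ x)
    + lam⁻¹ * (x ^ g * Ec N a E σ (lam * x)) - g * q * (F (lam * x) - F x) with hΦ
  have hFc : Continuous F := continuous_iff_continuousAt.2 (fun y => (hFd y).continuousAt)
  have hΦc : Continuous Φ := by
    have c1 : Continuous (fun x : ℝ => x ^ g) := Real.continuous_rpow_const (by linarith)
    have c2 : Continuous (fun x : ℝ => lam * x) := continuous_const.mul continuous_id
    exact ((continuous_const.mul (c1.mul Ec_cont)).add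
      (continuous_const.mul (c1.mul (Ec_cont.comp c2)))).sub
      (continuous_const.mul ((hFc.comp c2).sub hFc))
  set B : ℝ → ℝ := fun x => Φ 1 + 8 * δ * M * (1 - (x ^ 2)⁻¹) with hBdef
  have hBd : ∀ x : ℝ, 0 < x → HasDerivAt B (16 * δ * M * (x ^ 3)⁻¹) x := by
    intro x hx
    have h1 : HasDerivAt (fun y : ℝ => (y ^ 2)⁻¹) (-(2 * x) / (x ^ 2) ^ 2) x := by
      have := (hasDerivAt_pow 2 x).fun_inv (by positivity)
      simpa using this
    have h2 := ((h1.const_sub 1).const_mul (8 * δ * M)).const_add (Φ 1)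
    refine h2.congr_deriv ?_
    field_simp
    ring
  have hmain : Φ Sg ≤ B Sg := by
    -- choose derivatives
    have hex : ∀ x ∈ Set.Ico 1 Sg, ∃ d, HasDerivWithinAt Φ d (Set.Ici x) x ∧
        d ≤ 16 * δ * M * (x ^ 3)⁻¹ := by
      intro x hx
      have hx0' : 0 < x := by linarith [hx.1]
      have hlx : lam * x < σ N := by
        have : lam * x < x0 := by rw [← hlS]; exact mul_lt_mul_of_pos_left hx.2 hlp
        exact this.trans_le hx0.2
      have hxlx : x ≤ lam * x := by nlinarith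
      obtain ⟨k, hk, hk1, hk2⟩ := D.find_piece hx.1 le_rfl (lt_of_le_of_lt hxlx hlx)
      obtain ⟨k', hk', hk1', hk2'⟩ := D.find_piece (hx.1.trans hxlx) le_rfl hlx
      have hkk : k ≤ k' := by
        by_contra hcon
        push Not at hcon
        have := D.s_mono (show k' + 1 ≤ k from hcon) hk.le
        linarith
      have d1 := D.Ec_deriv hk hk1 hk2
      have d2' := D.Ec_deriv hk' hk1' hk2'
      have d2 : HasDerivWithinAt (fun x => Ec N a E σ (lam * x)) (-(a k') * lam) (Set.Ici x) x := by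
        have h1 : HasDerivWithinAt (fun x : ℝ => lam * x) lam (Set.Ici x) x := by
          simpa using ((hasDerivAt_id x).const_mul lam).hasDerivWithinAt
        exact HasDerivWithinAt.comp (h₂ := Ec N a E σ) (h := fun x => lam * x) x d2' h1
          (fun w hw => mul_le_mul_of_nonneg_left hw hlp.le)
      have d3 : HasDerivWithinAt (fun x : ℝ => x ^ g) (g * x ^ (g - 1)) (Set.Ici x) x :=
        (Real.hasDerivAt_rpow_const (Or.inl hx0'.ne')).hasDerivWithinAt
      have d4 : HasDerivWithinAt F (x ^ (g - 1) * Ec N a E σ x) (Set.Ici x) x :=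
        (hFd x).hasDerivWithinAt
      have d5 : HasDerivWithinAt (fun x => F (lam * x))
          (((lam * x) ^ (g - 1) * Ec N a E σ (lam * x)) * lam) (Set.Ici x) x := by
        have h1 : HasDerivAt (fun x : ℝ => lam * x) lam x := by
          simpa using (hasDerivAt_id x).const_mul lam
        exact (HasDerivAt.comp (h₂ := F) (h := fun x => lam * x) x (hFd (lam * x)) h1).hasDerivWithinAt
      have d6 := (((d3.mul d1).const_mul (lam - 1)).add ((d3.mul d2).const_mul lam⁻¹)).sub
        ((d5.sub d4).const_mul (g * q))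
      refine ⟨_, d6, ?_⟩
      have e1 : (lam * x) ^ (g - 1) = lam ^ (g - 1) * x ^ (g - 1) :=
        Real.mul_rpow hlp.le hx0'.le
      have e2 : lam ^ (g - 1) * lam = lam ^ g := by
        rw [← Real.rpow_add_one hlp.ne']; congr 1; ring
      have e3 : x ^ g = x ^ (g - 1) * x := by
        rw [← Real.rpow_add_one hx0'.ne']; congr 1; ring
      have hE : Ec N a E σ x = E k - a k * (x - σ k) := D.Ec_piece hk hk1 hk2.le
      have hkey := D.key k k' hkk hk'
      have hak := D.apos k hk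
      have hak' := D.apos k' hk'
      have hidx := D.index_bound hk hx.1 hk2
      have hEkn := D.E_nonneg hk.le
      have hEx0 : 0 ≤ Ec N a E σ x := hENE x (hxlx.trans hlx.le)
      -- (1 - ε) E(x) ≤ …
      have hεk : ε k ≤ 4 * δ / x ^ 2 := by
        refine (hε k).trans ?_
        have hk0 : (0:ℝ) < k + 1 := by positivity
        rw [div_le_div_iff₀ hk0 (by positivity)]
        nlinarith
      have hineq : Ec N a E σ x ≤ (lam - 1) * x * a k + x * a k' + 4 * δ / x ^ 2 * E k := by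
        have i1 : a k' * σ k ≤ a k' * x := mul_le_mul_of_nonneg_left hk1 hak'.le
        have i2 : a k * σ k' ≤ a k * (lam * x) := mul_le_mul_of_nonneg_left hk1' hak.le
        have i3 : ε k * E k ≤ 4 * δ / x ^ 2 * E k := mul_le_mul_of_nonneg_right hεk hEkn
        rw [hE]
        linarith
      -- `x ^ g E_k ≤ 4 M`
      have hσk1 : 1 ≤ σ k := by
        have := D.s_mono (Nat.zero_le k) hk.le
        rw [D.s0] at this; exact this
      have hEkM : x ^ g * E k ≤ 4 * M := by
        have j1 := hMx (σ k) hσk1 (D.s_mono hk.le le_rfl)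
        have j2 : Ec N a E σ (σ k) = E k := by
          rw [D.Ec_piece hk le_rfl (D.s_mono (Nat.le_succ k) hk)]; ring
        rw [j2] at j1
        have j3 : a k ≤ 1 := by
          have j4 := D.e k hk
          have j5 := D.E_nonneg (show k + 1 ≤ N from hk)
          have j6 := D.E_anti (Nat.zero_le k) hk.le
          have j7 := D.e0
          nlinarith
        have j4 : x ≤ 2 * σ k := by rw [D.s k hk] at hk2; linarith
        have j5 : x ^ g ≤ (2 * σ k) ^ g := Real.rpow_le_rpow hx0'.le j4 (by linarith)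
        have j6 : (2 * σ k) ^ g = 2 ^ g * σ k ^ g := Real.mul_rpow (by norm_num) (by linarith)
        have j7 : (2:ℝ) ^ g ≤ 4 := by
          have : g ≤ 2 := by rw [hg, div_le_iff₀ hvp]; linarith
          calc (2:ℝ) ^ g ≤ 2 ^ (2:ℝ) := Real.rpow_le_rpow_of_exponent_le (by norm_num) this
            _ = 4 := by norm_num
        have j8 : 0 ≤ σ k ^ g * E k := mul_nonneg (Real.rpow_nonneg (by linarith) _) hEkn
        calc x ^ g * E k ≤ (2 ^ g * σ k ^ g) * E k := by
              rw [← j6]; exact mul_le_mul_of_nonneg_right j5 hEkn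
          _ = 2 ^ g * (σ k ^ g * E k) := by ring
          _ ≤ 4 * (σ k ^ g * E k) := mul_le_mul_of_nonneg_right j7 j8
          _ ≤ 4 * M := by linarith
      have hxg : 0 < x ^ (g - 1) := Real.rpow_pos_of_pos hx0' _
      have e4 : (lam - 1) * (g * x ^ (g - 1) * Ec N a E σ x + x ^ g * -a k) +
          lam⁻¹ * (g * x ^ (g - 1) * Ec N a E σ (lam * x) + x ^ g * (-a k' * lam)) -
          g * q * ((lam * x) ^ (g - 1) * Ec N a E σ (lam * x) * lam -
            x ^ (g - 1) * Ec N a E σ x) =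
          x ^ (g - 1) * (((lam - 1) * g + g * q) * Ec N a E σ x - ((lam - 1) * x * a k + x * a k'))
          + x ^ (g - 1) * Ec N a E σ (lam * x) * g * (lam⁻¹ - q * (lam ^ (g - 1) * lam)) := by
        rw [e1, e3]
        field_simp
        ring
      rw [e4, e2, hqlg, hid, one_div, sub_self, mul_zero, add_zero, one_mul]
      rw [e3] at hEkM
      calc _ ≤ x ^ (g - 1) * (4 * δ / x ^ 2 * E k) :=
            mul_le_mul_of_nonneg_left (by linarith) hxg.le
        _ = 4 * δ * (x ^ 3)⁻¹ * (x ^ (g - 1) * x * E k) := by field_simp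
        _ ≤ 4 * δ * (x ^ 3)⁻¹ * (4 * M) := mul_le_mul_of_nonneg_left hEkM (by positivity)
        _ = _ := by ring
    choose! d hd hd0 using hex
    have := image_le_of_deriv_right_le_deriv_boundary (f := Φ) (f' := d) (a := 1) (b := Sg)
      (B := B) (B' := fun x => 16 * δ * M * (x ^ 3)⁻¹) hΦc.continuousOn hd (by simp [hBdef])
      (fun x hx => (hBd x (by linarith [hx.1])).continuousAt.continuousWithinAt)
      (fun x hx => (hBd x (by linarith [hx.1])).hasDerivWithinAt) hd0
    exact this (Set.right_mem_Icc.2 hSg1)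
  -- upper bound for Φ 1
  have hΦ1 : Φ 1 ≤ lam := by
    simp only [hΦ, Real.one_rpow, one_mul, mul_one]
    have hbig' : lam ≤ σ N := hbig.trans hx0.2
    have h1 : 0 ≤ F lam - F 1 := by
      simp only [hF, intervalIntegral.integral_same, sub_zero]
      apply intervalIntegral.integral_nonneg hl1.le
      intro t ht
      exact mul_nonneg (Real.rpow_nonneg (by linarith [ht.1]) _) (hENE t (ht.2.trans hbig'))
    have h2 : 0 ≤ g * q * (F lam - F 1) := mul_nonneg (by positivity) h1
    have h3 := hE1 1 le_rfl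
    have h4 := hE1 lam hl1.le
    have h5 : lam⁻¹ ≤ 1 := inv_le_one_of_one_le₀ hl1.le
    have h6 : 0 ≤ Ec N a E σ lam := hENE lam hbig'
    have h7 : lam⁻¹ * Ec N a E σ lam ≤ 1 := by
      calc _ ≤ 1 * 1 := mul_le_mul h5 h4 h6 (by norm_num)
        _ = 1 := by norm_num
    have h8 : (lam - 1) * Ec N a E σ 1 ≤ (lam - 1) * 1 :=
      mul_le_mul_of_nonneg_left h3 (by linarith)
    linarith
  -- lower bound for Φ Sg
  have hSgp : 0 < Sg := by linarith
  have hSglam : Sg ≤ lam * Sg := by nlinarith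
  have hint : F (lam * Sg) - F Sg ≤ Ec N a E σ Sg * (((lam * Sg) ^ g - Sg ^ g) / g) := by
    simp only [hF]
    rw [intervalIntegral.integral_interval_sub_left (hgc.intervalIntegrable _ _)
      (hgc.intervalIntegrable _ _)]
    have h1 : ∫ t in Sg..(lam * Sg), t ^ (g - 1) = ((lam * Sg) ^ g - Sg ^ g) / g := by
      rw [integral_rpow (Or.inl (by linarith))]
      rw [show g - 1 + 1 = g by ring]
    rw [← h1, ← intervalIntegral.integral_const_mul]
    apply intervalIntegral.integral_mono_on hSglam (hgc.intervalIntegrable _ _)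
    · exact (continuous_const.mul (Real.continuous_rpow_const (by linarith))).intervalIntegrable _ _
    · intro t ht
      rw [mul_comm (Ec N a E σ Sg)]
      exact mul_le_mul_of_nonneg_left (D.Ec_anti ht.1)
        (Real.rpow_nonneg (by linarith [ht.1]) _)
  have hSgg : 0 < Sg ^ g := Real.rpow_pos_of_pos hSgp _
  have hΦS : lam⁻¹ * (Sg ^ g * Ec N a E σ x0) ≤ Φ Sg := by
    simp only [hΦ]
    rw [hlS]
    rw [hlS] at hint
    have h2 : g * q * (F x0 - F Sg) ≤ Ec N a E σ Sg * Sg ^ g * (1 / lam - q) := by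
      calc g * q * (F x0 - F Sg) ≤ g * q * (Ec N a E σ Sg * ((x0 ^ g - Sg ^ g) / g)) :=
            mul_le_mul_of_nonneg_left hint (by positivity)
        _ = Ec N a E σ Sg * (q * (x0 ^ g - Sg ^ g)) := by field_simp
        _ = Ec N a E σ Sg * Sg ^ g * (q * lam ^ g - q) := by
            rw [← hlS, Real.mul_rpow hlp.le hSgp.le]; ring
        _ = _ := by rw [hqlg]
    have h3 : 0 ≤ (lam - 1) - (1 / lam - q) := by
      rw [hlam, hq]
      have : 1 / (1 - v ^ 2) - 1 - (1 / (1 / (1 - v ^ 2)) - v / (1 - v ^ 2)) =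
          (v ^ 2 + v - (1 - v ^ 2) ^ 2) / (1 - v ^ 2) := by field_simp; ring
      rw [this]
      apply div_nonneg _ h1v.le
      have h4 : (1 - v ^ 2) ^ 2 ≤ (1 - (13/28)^2) ^ 2 := by
        apply pow_le_pow_left₀ h1v.le; nlinarith
      nlinarith
    have h4 : 0 ≤ Ec N a E σ Sg * Sg ^ g * ((lam - 1) - (1 / lam - q)) :=
      mul_nonneg (mul_nonneg (hENE Sg ((by rw [← hlS]; exact hSglam : Sg ≤ x0).trans hx0.2)) hSgg.le) h3
    linarith
  have hB1 : B Sg ≤ lam + 8 * δ * M := by
    simp only [hBdef]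
    have h1 : 0 ≤ (Sg ^ 2)⁻¹ := by positivity
    have h2 : 0 ≤ 8 * δ * M := by positivity
    nlinarith
  have h1 : Sg ^ g * Ec N a E σ x0 ≤ lam * (lam + 8 * δ * M) := by
    have h1 : lam⁻¹ * (Sg ^ g * Ec N a E σ x0) ≤ lam + 8 * δ * M :=
      hΦS.trans (hmain.trans hB1)
    rw [inv_mul_le_iff₀ hlp] at h1
    exact h1
  have h2 : M ≤ lam ^ g * (lam * (lam + 8 * δ * M)) := by
    calc M = lam ^ g * (Sg ^ g * Ec N a E σ x0) := by
          rw [hM]
          conv_lhs => rw [← hlS, Real.mul_rpow hlp.le hSgp.le]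
          rw [hlS]; ring
      _ ≤ _ := mul_le_mul_of_nonneg_left h1 (by positivity)
  have h3 : lam ^ g * (lam * (lam + 8 * δ * M)) = lam ^ (g + 2) + 8 * δ * lam ^ (g + 1) * M := by
    rw [Real.rpow_add hlp, Real.rpow_add hlp, Real.rpow_two, Real.rpow_one]; ring
  have h4 : 8 * δ * lam ^ (g + 1) ≤ 1 / 2 := by
    have hp : 0 < lam ^ (g + 1) := by positivity
    rw [le_div_iff₀ (by positivity)] at hδ
    linarith
  have h5 : 8 * δ * lam ^ (g + 1) * M ≤ 1 / 2 * M := mul_le_mul_of_nonneg_right h4 hM0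
  linarith

end Pool.Agent.J4H62.PG
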