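import Pool.Agent.J4H62.PG.Up1

/-!
# The upper bound for mildly weak greedy algorithms
-/

set_option autoImplicit false
set_option linter.all false

namespace Pool.Agent.J4H62.PG

open Real Finset N298.PGA

section wga

variable {H : Type*} [NormedAddCommGroup H] [InnerProductSpace ℝ H]
variable {D : Set H} (hD : IsDictionary D) {f : H} (hf : f ∈ A1 D) {m : ℕ} {φ G : ℕ → H} {τ : ℕ → ℝ}
  (hG : IsWGA D f τ m φ G)

include hG in
lemma w_rs_succ {k : ℕ} (hk : k < m) :
    f - G (k+1) = (f - G k) - (inner ℝ (f - G k) (φ (k+1))) • φ (k+1) := by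
  rw [hG.step k hk]; abel

include hf hG in
lemma w_inner_sgm {n : ℕ} (hn : n ≤ m) {w : H} {M : ℝ} (hM : 0 ≤ M)
    (h : ∀ g ∈ D, |(inner ℝ w g)| ≤ M) :
    |(inner ℝ w (f - G n))| ≤ sgm f φ G n * M := by
  induction n with
  | zero =>
    rw [hG.zero, sub_zero]; unfold sgm; simp only [range_zero, sum_empty, add_zero, one_mul]
    exact A1_inner hf hM h
  | succ n ih =>
    rw [w_rs_succ hG (by omega : n < m), inner_sub_right, real_inner_smul_right]
    have h1 := ih (by omega)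
    have h2 := h _ (hG.mem n (by omega))
    have h3 : |(inner ℝ (f - G n) (φ (n+1))) * (inner ℝ w (φ (n+1)))| ≤ st f φ G n * M := by
      rw [abs_mul]
      exact mul_le_mul_of_nonneg_left h2 (abs_nonneg _)
    have h4 : sgm f φ G (n+1) = sgm f φ G n + st f φ G n := by
      unfold sgm; rw [Finset.sum_range_succ]; ring
    rw [h4]
    have := abs_sub ((inner ℝ w (f - G n))) ((inner ℝ (f - G n) (φ (n+1))) * (inner ℝ w (φ (n+1))))
    linarith

include hD hG in
lemma w_E_succ {k : ℕ} (hk : k < m) : ‖f - G (k+1)‖ ^ 2 = ‖f - G k‖ ^ 2 - st f φ G k ^ 2 := by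
  rw [w_rs_succ hG hk, norm_sub_sq_real, real_inner_smul_right, norm_smul, mul_pow,
    hD.norm_eq_one _ (hG.mem k hk), Real.norm_eq_abs]
  unfold st
  rw [sq_abs]; ring

variable {δ : ℝ} (hδ0 : 0 ≤ δ) (hδ1 : δ ≤ 1/16)
  (hτ : ∀ k : ℕ, 1 ≤ k → k ≤ m → 1 - δ / k ≤ τ k)

include hδ0 hδ1 hτ hG in
lemma w_inner_le {n k : ℕ} (hnk : n ≤ k) (hk : k < m) {g : H} (hg : g ∈ D) :
    (1 - δ / (n + 1)) * |(inner ℝ (f - G k) g)| ≤ st f φ G k := by
  have h1 := hG.greedy k hk g hg
  have h2 := hτ (k+1) (by omega) (by omega)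
  have h3 : δ / ((k + 1 : ℕ) : ℝ) ≤ δ / (n + 1) := by
    apply div_le_div_of_nonneg_left hδ0 (by positivity)
    push_cast
    have : (n:ℝ) ≤ k := by exact_mod_cast hnk
    linarith
  have h4 : (1 - δ / (n + 1)) ≤ τ (k+1) := by linarith
  exact (mul_le_mul_of_nonneg_right h4 (abs_nonneg _)).trans h1

include hδ0 hδ1 in
lemma loss_pos (n : ℕ) : 15/16 ≤ 1 - δ / (n + 1) := by
  have : δ / ((n:ℝ) + 1) ≤ δ / 1 := by
    apply div_le_div_of_nonneg_left hδ0 (by norm_num)
    have : (0:ℝ) ≤ n := Nat.cast_nonneg n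
    linarith
  linarith

include hf hδ0 hδ1 hτ hG in
lemma w_key_ineq (n k : ℕ) (hnk : n ≤ k) (hk : k < m) :
    (1 - δ / (n + 1)) * ‖f - G n‖ ^ 2 ≤
      st f φ G k * sgm f φ G n + st f φ G n * (sgm f φ G k - sgm f φ G n) := by
  set L : ℝ := 1 - δ / (n + 1) with hL
  have hLp : 0 < L := by have := loss_pos hδ0 hδ1 n; linarith
  have h1 : ∀ k, n ≤ k → k < m → L * ((inner ℝ (f - G n) (f - G n)) - (inner ℝ (f - G n) (f - G k))) ≤
      st f φ G n * (sgm f φ G k - sgm f φ G n) := by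
    intro k hnk
    induction k, hnk using Nat.le_induction with
    | base => intro _; simp
    | succ k hnk ih =>
      intro hk
      have h2 := ih (by omega)
      have e5 : (inner ℝ (f - G n) (f - G (k+1))) = (inner ℝ (f - G n) (f - G k)) -
          (inner ℝ (f - G k) (φ (k+1))) * (inner ℝ (f - G n) (φ (k+1))) := by
        rw [w_rs_succ hG (by omega : k < m), inner_sub_right (f - G n) (f - G k),
          real_inner_smul_right]
      rw [e5]
      have h3 : L * ((inner ℝ (f - G k) (φ (k+1))) * (inner ℝ (f - G n) (φ (k+1)))) ≤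
          st f φ G k * st f φ G n := by
        calc _ ≤ L * |(inner ℝ (f - G k) (φ (k+1))) * (inner ℝ (f - G n) (φ (k+1)))| :=
              mul_le_mul_of_nonneg_left (le_abs_self _) hLp.le
          _ = |(inner ℝ (f - G k) (φ (k+1)))| * (L * |(inner ℝ (f - G n) (φ (k+1)))|) := by
              rw [abs_mul]; ring
          _ ≤ _ := mul_le_mul_of_nonneg_left
            (w_inner_le hG hδ0 hδ1 hτ le_rfl (by omega : n < m) (hG.mem k (by omega)))
            (abs_nonneg _)
      have h4 : sgm f φ G (k+1) = sgm f φ G k + st f φ G k := by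
        unfold sgm; rw [Finset.sum_range_succ]; ring
      rw [h4]
      nlinarith
  have h2 := h1 k hnk hk
  have h3 := w_inner_sgm hf hG (show n ≤ m by omega) (w := f - G k) (M := st f φ G k / L)
    (div_nonneg (st_nonneg k) hLp.le) (fun g hg => by
      rw [le_div_iff₀ hLp, mul_comm]
      exact w_inner_le hG hδ0 hδ1 hτ hnk hk hg)
  rw [real_inner_comm] at h3
  have h4 := le_abs_self ((inner ℝ (f - G n) (f - G k)))
  rw [real_inner_self_eq_norm_sq] at h2
  have h5 : L * (inner ℝ (f - G n) (f - G k)) ≤ sgm f φ G n * st f φ G k := by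
    calc L * (inner ℝ (f - G n) (f - G k)) ≤ L * (sgm f φ G n * (st f φ G k / L)) :=
          mul_le_mul_of_nonneg_left (h4.trans h3) hLp.le
      _ = _ := by field_simp
  linarith

include hD hf hG hδ0 hδ1 hτ in
/-- `E_m σ_m^γ ≤ 2 λ^{γ+2}` -/
theorem WGA_bound {v : ℝ} (hv : IsRoot v)
    (hδ : δ ≤ 1 / (16 * (1 / (1 - v ^ 2)) ^ ((1 - v) / v + 1))) :
    ‖f - G m‖ ^ 2 * sgm f φ G m ^ ((1 - v) / v) ≤ 2 * (1 / (1 - v ^ 2)) ^ ((1 - v) / v + 2) := by
  have h1v : 0 < 1 - v ^ 2 := by nlinarith [hv.pos, hv.lt_one]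
  by_cases hpos : ∀ k < m, 0 < st f φ G k
  · have Dt : DW m (st f φ G) (fun k => ‖f - G k‖ ^ 2) (sgm f φ G) (fun n => δ / (n + 1)) :=
      { apos := hpos
        s0 := by simp [sgm]
        s := fun k _ => by unfold sgm; rw [Finset.sum_range_succ]; ring
        e := fun k hk => w_E_succ hD hG hk
        e0 := by
          rw [hG.zero, sub_zero]
          have := A1_norm hD hf
          have h2 := norm_nonneg f
          nlinarith
        epos := by positivity
        key := fun n k hnk hk => w_key_ineq hf hG hδ0 hδ1 hτ n k hnk hk }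
    exact Dt.bound hv hδ0 hδ (fun n => le_rfl)
  · push Not at hpos
    obtain ⟨k, hk, hk0⟩ := hpos
    have hk0' : st f φ G k = 0 := le_antisymm hk0 (st_nonneg k)
    have h1 := w_key_ineq hf hG hδ0 hδ1 hτ k k le_rfl hk
    rw [hk0'] at h1
    have hLp := loss_pos hδ0 hδ1 k
    have hk2 : ‖f - G k‖ ^ 2 ≤ 0 := by
      have h3 : 0 ≤ ‖f - G k‖ ^ 2 := by positivity
      nlinarith
    have hmono : ∀ j, k ≤ j → j ≤ m → ‖f - G j‖ ^ 2 ≤ 0 := by
      intro j hkj
      induction j, hkj using Nat.le_induction with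
      | base => intro _; exact hk2
      | succ j hj ih =>
        intro hjm
        have h2 := ih (by omega)
        rw [w_E_succ hD hG (by omega)]
        nlinarith [sq_nonneg (st f φ G j)]
    have h3 := hmono m hk.le le_rfl
    have h4 : ‖f - G m‖ ^ 2 = 0 := le_antisymm h3 (by positivity)
    rw [h4, zero_mul]
    positivity

include hD hf hG hδ0 hδ1 hτ in
/-- `m E_m ≤ 2 σ_m²` -/
theorem WGA_sigma : (m:ℝ) * ‖f - G m‖ ^ 2 ≤ 2 * sgm f φ G m ^ 2 := by
  have hs1 : ∀ k, 1 ≤ sgm f φ G k := by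
    intro k; unfold sgm
    have : 0 ≤ ∑ i ∈ range k, st f φ G i := Finset.sum_nonneg fun i _ => st_nonneg i
    linarith
  have hsm : ∀ k ≤ m, sgm f φ G k ≤ sgm f φ G m := by
    intro k hk; unfold sgm
    have : ∑ i ∈ range k, st f φ G i ≤ ∑ i ∈ range m, st f φ G i :=
      Finset.sum_le_sum_of_subset_of_nonneg (Finset.range_subset_range.2 hk)
        (fun i _ _ => st_nonneg i)
    linarith
  have hEm : ∀ k ≤ m, ‖f - G m‖ ^ 2 ≤ ‖f - G k‖ ^ 2 := by
    intro k hk
    have : ∀ j, k ≤ j → j ≤ m → ‖f - G j‖ ^ 2 ≤ ‖f - G k‖ ^ 2 := by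
      intro j hkj
      induction j, hkj using Nat.le_induction with
      | base => intro _; exact le_rfl
      | succ j hj ih =>
        intro hjm
        have h2 := ih (by omega)
        rw [w_E_succ hD hG (by omega)]
        nlinarith [sq_nonneg (st f φ G j)]
    exact this m hk le_rfl
  have h1 : ∀ k ∈ range m, ‖f - G m‖ ^ 2 ≤ 2 * (st f φ G k * sgm f φ G m) := by
    intro k hk
    rw [Finset.mem_range] at hk
    have h2 := w_key_ineq hf hG hδ0 hδ1 hτ k k le_rfl hk
    rw [sub_self, mul_zero, add_zero] at h2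
    have h3 := loss_pos hδ0 hδ1 k
    have h4 : 0 ≤ ‖f - G k‖ ^ 2 := by positivity
    have h5 := hEm k hk.le
    have h6 : st f φ G k * sgm f φ G k ≤ st f φ G k * sgm f φ G m :=
      mul_le_mul_of_nonneg_left (hsm k hk.le) (st_nonneg k)
    have h7 : (15/16) * ‖f - G k‖ ^ 2 ≤ (1 - δ / (k + 1)) * ‖f - G k‖ ^ 2 :=
      mul_le_mul_of_nonneg_right h3 h4
    linarith
  have h2 := Finset.sum_le_sum h1
  rw [Finset.sum_const, Finset.card_range, nsmul_eq_mul, ← Finset.mul_sum, ← Finset.sum_mul] at h2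
  have h3 : ∑ i ∈ range m, st f φ G i ≤ sgm f φ G m := by unfold sgm; linarith
  have h4 := hs1 m
  nlinarith

end wga

/-- **The upper bound.** -/
theorem up {v : ℝ} (hv : IsRoot v) : ∃ C δ : ℝ, 0 < C ∧ 0 < δ ∧
    ∀ (H : Type*) [NormedAddCommGroup H] [InnerProductSpace ℝ H],
      ∀ (D : Set H) (f : H) (τ : ℕ → ℝ) (m : ℕ) (φ G : ℕ → H),
        IsDictionary D → f ∈ A1 D → (∀ k : ℕ, 1 ≤ k → k ≤ m → 1 - δ / k ≤ τ k) →
        IsWGA D f τ m φ G → 1 ≤ m →
        ‖f - G m‖ ≤ C * (m:ℝ) ^ (-((1 - v) / (2 * (1 + v)))) := by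
  have hvp := hv.pos
  have hv1 := hv.lt_one
  have h1v : 0 < 1 - v ^ 2 := by nlinarith
  set g : ℝ := (1 - v) / v with hg
  have hgp : 0 < g := div_pos (by linarith) hvp
  set δ : ℝ := min (1/16) (1 / (16 * (1 / (1 - v ^ 2)) ^ (g + 1))) with hδ
  have hδp : 0 < δ := lt_min (by norm_num) (by positivity)
  set C0 : ℝ := 2 * (1 / (1 - v ^ 2)) ^ (g + 2) with hC0
  have hC0p : 0 < C0 := by positivity
  set C1 : ℝ := C0 * 2 ^ (g / 2) with hC1
  have hC1p : 0 < C1 := by positivity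
  refine ⟨C1 ^ (1 / (2 + g)), δ, by positivity, hδp, ?_⟩
  intro H _ _ D f τ m φ G hD hf hτ hG hm
  have b1 := WGA_bound hD hf hG hδp.le (min_le_left _ _) hτ hv (min_le_right _ _)
  have b2 := WGA_sigma hD hf hG hδp.le (min_le_left _ _) hτ
  set r : ℝ := ‖f - G m‖ with hr
  have hr0 : 0 ≤ r := norm_nonneg _
  have hmr : (1:ℝ) ≤ m := by exact_mod_cast hm
  have hs0 : 0 ≤ sgm f φ G m := by
    unfold sgm
    have : 0 ≤ ∑ i ∈ range m, st f φ G i := Finset.sum_nonneg fun i _ => st_nonneg i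
    linarith
  have h1 : r * (m:ℝ) ^ (1/2 : ℝ) ≤ 2 ^ (1/2 : ℝ) * sgm f φ G m := by
    apply le_of_sq_le_sq _ (by positivity)
    rw [mul_pow, mul_pow, ← Real.rpow_natCast ((m:ℝ) ^ (1/2:ℝ)), ← Real.rpow_mul (by linarith),
      ← Real.rpow_natCast ((2:ℝ) ^ (1/2:ℝ)), ← Real.rpow_mul (by norm_num)]
    norm_num
    linarith
  have h2 : r ^ (2 + g) * (m:ℝ) ^ (g/2) ≤ C1 := by
    calc r ^ (2 + g) * (m:ℝ) ^ (g/2) = r ^ 2 * (r * (m:ℝ) ^ (1/2 : ℝ)) ^ g := by
          rw [Real.mul_rpow hr0 (by positivity), ← Real.rpow_mul (by linarith)]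
          rcases hr0.eq_or_lt with h0 | h0
          · rw [← h0, Real.zero_rpow (by linarith)]; simp
          · rw [Real.rpow_add h0, Real.rpow_two]
            rw [show (1/2 : ℝ) * g = g / 2 by ring]; ring
      _ ≤ r ^ 2 * (2 ^ (1/2 : ℝ) * sgm f φ G m) ^ g := by
          apply mul_le_mul_of_nonneg_left _ (by positivity)
          exact Real.rpow_le_rpow (by positivity) h1 hgp.le
      _ = (r ^ 2 * sgm f φ G m ^ g) * 2 ^ (g / 2) := by
          rw [Real.mul_rpow (by positivity) hs0, ← Real.rpow_mul (by norm_num)]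
          rw [show (1/2 : ℝ) * g = g / 2 by ring]; ring
      _ ≤ _ := mul_le_mul_of_nonneg_right b1 (by positivity)
  have hm0 : (0:ℝ) < m := by linarith
  have hal : (-((1 - v) / (2 * (1 + v)))) * (2 + g) = -(g/2) := by
    rw [hg]; field_simp; ring
  have h3 : r ^ (2 + g) ≤ (C1 ^ (1 / (2 + g)) * (m:ℝ) ^ (-((1 - v) / (2 * (1 + v))))) ^ (2 + g) := by
    rw [Real.mul_rpow (by positivity) (by positivity), ← Real.rpow_mul hC1p.le,
      ← Real.rpow_mul hm0.le, hal, one_div_mul_cancel (by linarith), Real.rpow_one,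
      Real.rpow_neg hm0.le, ← div_eq_mul_inv, le_div_iff₀ (by positivity)]
    exact h2
  exact (Real.rpow_le_rpow_iff hr0 (by positivity) (by linarith)).1 h3

end Pool.Agent.J4H62.PG
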